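import Pool.Agent.K6.H85.GW.Nil

/-!
# Graded rings with a large normalised Lie algebra

The algebraic part of the criterion: a graded ring `R` generated by its part `V` of degree one and
satisfying Poincaré duality, together with a Lie algebra `𝔞` of endomorphisms of `R` that contains
the multiplications by elements of `V` and the grading operator, whose elements carry `1` into
`ℂ ⊕ V`, and that contains no nilpotent element orthogonal to it.
-/

set_option autoImplicit false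
set_option linter.unusedSectionVars false

namespace Pool.Agent.K6.H85.GW

open Module

attribute [local instance 100] LieRing.ofAssociativeRing

variable {R : Type*} [CommRing R] [Algebra ℂ R] [FiniteDimensional ℂ R]

/-- multiplication by `u` -/
noncomputable abbrev mu (u : R) : End ℂ R := LinearMap.mulLeft ℂ u

/-- the commutator -/
noncomputable def br (X Y : End ℂ R) : End ℂ R := X * Y - Y * X

theorem br_apply (X Y : End ℂ R) (x : R) : br X Y x = X (Y x) - Y (X x) := rfl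

theorem br_jac (X Y Z : End ℂ R) : br X (br Y Z) = br (br X Y) Z + br Y (br X Z) := by
  unfold br; noncomm_ring

theorem br_mul (X Y Z : End ℂ R) : br X (Y * Z) = br X Y * Z + Y * br X Z := by
  unfold br; noncomm_ring

theorem br_zero_right (X : End ℂ R) : br X 0 = 0 := by
  unfold br; rw [mul_zero, zero_mul, sub_self]

theorem br_skew (X Y : End ℂ R) : br X Y = -br Y X := by
  unfold br; noncomm_ring

theorem br_add (X Y Z : End ℂ R) : br X (Y + Z) = br X Y + br X Z := by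
  unfold br; noncomm_ring

theorem br_sub (X Y Z : End ℂ R) : br X (Y - Z) = br X Y - br X Z := by
  unfold br; noncomm_ring

theorem br_smul (c : ℂ) (X Y : End ℂ R) : br X (c • Y) = c • br X Y := by
  unfold br; rw [mul_smul_comm, smul_mul_assoc, smul_sub]

theorem trace_br (X Y : End ℂ R) : LinearMap.trace ℂ R (br X Y) = 0 := by
  rw [br, map_sub, LinearMap.trace_mul_comm, sub_self]

theorem trace_br_mul (X Y Z : End ℂ R) :
    LinearMap.trace ℂ R (br X Y * Z) = -LinearMap.trace ℂ R (Y * br X Z) := by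
  have h := trace_br X (Y * Z)
  rw [br_mul, map_add] at h
  exact eq_neg_of_add_eq_zero_left h

/-- the hypotheses -/
structure Setup (V : Submodule ℂ R) (n : ℕ) (δ : End ℂ R) (I : R →ₗ[ℂ] ℂ)
    (𝔞 : LieSubalgebra ℂ (End ℂ R)) : Prop where
  gen : ⨆ k : ℕ, V ^ k = ⊤
  top : ∀ k : ℕ, n < k → V ^ k = ⊥
  δV : ∀ k : ℕ, ∀ x ∈ V ^ k, δ x = (k : ℂ) • x
  I0 : ∀ k : ℕ, k ≠ n → ∀ x ∈ V ^ k, I x = 0
  pd : ∀ x, (∀ y, I (x * y) = 0) → x = 0
  mem_mul : ∀ u ∈ V, mu u ∈ 𝔞
  mem_δ : δ ∈ 𝔞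
  one_mem : ∀ X ∈ 𝔞, X 1 ∈ Submodule.span ℂ {1} ⊔ V
  nil : ∀ X ∈ 𝔞, IsNilpotent X → (∀ Y ∈ 𝔞, LinearMap.trace ℂ R (X * Y) = 0) → X = 0

theorem br_mem {𝔞 : LieSubalgebra ℂ (End ℂ R)} {X Y : End ℂ R} (hX : X ∈ 𝔞) (hY : Y ∈ 𝔞) :
    br X Y ∈ 𝔞 := by
  have := 𝔞.lie_mem hX hY
  rwa [LieRing.of_associative_ring_bracket] at this

variable {V : Submodule ℂ R} {n : ℕ} {δ : End ℂ R} {I : R →ₗ[ℂ] ℂ}
  {𝔞 : LieSubalgebra ℂ (End ℂ R)}

/-- induction on the degree -/
theorem Setup.ind (h : Setup V n δ I 𝔞) {p : R → Prop} (h0 : ∀ k : ℕ, ∀ x ∈ V ^ k, p x)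
    (hadd : ∀ x y, p x → p y → p (x + y)) (x : R) : p x := by
  have hx : x ∈ ⨆ k : ℕ, V ^ k := by rw [h.gen]; trivial
  induction hx using Submodule.iSup_induction' with
  | mem i x hx => exact h0 i x hx
  | zero => exact h0 0 0 (Submodule.zero_mem _)
  | add x y _ _ hx hy => exact hadd x y hx hy

theorem Setup.V1 (_ : Setup V n δ I 𝔞) {u : R} (hu : u ∈ V) : u ∈ V ^ 1 := by rwa [pow_one]

theorem Setup.δ1 (h : Setup V n δ I 𝔞) : δ 1 = 0 := by
  have := h.δV 0 1 (by rw [pow_zero]; exact Submodule.one_le.1 le_rfl)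
  simpa using this

open Polynomial in
/-- the eigenvalues of `δ` are the integers `0, …, n` -/
theorem Setup.spec (h : Setup V n δ I 𝔞) {y : R} {μ : ℂ} (hy : δ y = μ • y)
    (hμ : ∀ k : ℕ, k ≤ n → μ ≠ k) : y = 0 := by
  let P : ℂ[X] := ∏ k ∈ Finset.range (n + 1), (X - C (k : ℂ))
  have hP : ∀ x : R, aeval δ P x = 0 := by
    refine h.ind (fun k x hx => ?_) (fun x y hx hy => by rw [map_add, hx, hy, add_zero])
    by_cases hk : k ≤ n
    · rw [Module.End.aeval_apply_of_mem_apply_eq_smul (h.δV k x hx)]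
      have : P.eval (k : ℂ) = 0 := by
        rw [eval_prod]
        exact Finset.prod_eq_zero (i := k) (Finset.mem_range.2 (by omega)) (by simp)
      rw [this, zero_smul]
    · rw [h.top k (by omega)] at hx
      rw [(Submodule.mem_bot ℂ).1 hx, map_zero]
  have h1 := hP y
  rw [Module.End.aeval_apply_of_mem_apply_eq_smul hy] at h1
  refine (smul_eq_zero.1 h1).resolve_left ?_
  rw [eval_prod]
  refine Finset.prod_ne_zero_iff.2 ?_
  intro k hk
  rw [eval_sub, eval_X, eval_C, sub_ne_zero]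
  exact hμ k (by have := Finset.mem_range.1 hk; omega)

/-- `X` has degree `ν` -/
def Deg (δ : End ℂ R) (ν : ℂ) (X : End ℂ R) : Prop := br δ X = ν • X

theorem Deg.apply {ν : ℂ} {X : End ℂ R} (h : Deg δ ν X) {μ : ℂ} {x : R} (hx : δ x = μ • x) :
    δ (X x) = (μ + ν) • X x := by
  have h1 : br δ X x = ν • X x := by rw [h]; rfl
  rw [br_apply, hx, map_smul] at h1
  rw [add_smul, ← h1]
  abel

theorem Deg.mul {ν μ : ℂ} {X Y : End ℂ R} (hX : Deg δ ν X) (hY : Deg δ μ Y) :
    Deg δ (ν + μ) (X * Y) := by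
  unfold Deg at *
  rw [br_mul, hX, hY, smul_mul_assoc, mul_smul_comm, add_smul]

theorem Deg.br {ν μ : ℂ} {X Y : End ℂ R} (hX : Deg δ ν X) (hY : Deg δ μ Y) :
    Deg δ (ν + μ) (br X Y) := by
  unfold Deg at *
  rw [br_jac, hX, hY, br_smul, add_smul]
  congr 1
  rw [GW.br, GW.br, smul_mul_assoc, mul_smul_comm, smul_sub]

theorem Deg.add {ν : ℂ} {X Y : End ℂ R} (hX : Deg δ ν X) (hY : Deg δ ν Y) :
    Deg δ ν (X + Y) := by
  unfold Deg at *
  rw [br_add, hX, hY, smul_add]

theorem Deg.sub {ν : ℂ} {X Y : End ℂ R} (hX : Deg δ ν X) (hY : Deg δ ν Y) :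
    Deg δ ν (X - Y) := by
  unfold Deg at *
  rw [br_sub, hX, hY, smul_sub]

theorem Deg.smul {ν : ℂ} {X : End ℂ R} (hX : Deg δ ν X) (c : ℂ) : Deg δ ν (c • X) := by
  unfold Deg at *
  rw [br_smul, hX, smul_comm]

theorem Deg.trace {ν : ℂ} {X : End ℂ R} (hX : Deg δ ν X) (hν : ν ≠ 0) :
    LinearMap.trace ℂ R X = 0 := by
  have h1 := trace_br δ X
  rw [hX, map_smul, smul_eq_mul] at h1
  exact (mul_eq_zero.1 h1).resolve_left hν

theorem Setup.deg_mu (h : Setup V n δ I 𝔞) {u : R} (hu : u ∈ V) : Deg δ 1 (mu u) := by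
  unfold Deg
  ext x
  rw [br_apply]
  change δ (u * x) - u * δ x = (1 : ℂ) • (u * x)
  refine h.ind (p := fun x => δ (u * x) - u * δ x = (1 : ℂ) • (u * x)) ?_ ?_ x
  · intro k x hx
    have h1 : u * x ∈ V ^ (k + 1) := by
      rw [pow_succ']
      exact Submodule.mul_mem_mul hu hx
    rw [h.δV _ _ h1, h.δV _ _ hx, mul_smul_comm, ← sub_smul]
    push_cast
    ring_nf
  · intro x y hx hy
    rw [mul_add, map_add, map_add, mul_add, smul_add, ← hx, ← hy]
    abel

/-- an operator of large degree vanishes -/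
theorem Setup.eq_zero_of_deg (h : Setup V n δ I 𝔞) {ν : ℂ} {X : End ℂ R} (hX : Deg δ ν X)
    (hν : ∀ k l : ℕ, k ≤ n → l ≤ n → (k : ℂ) + ν ≠ l) : X = 0 := by
  ext x
  rw [LinearMap.zero_apply]
  refine h.ind (p := fun x => X x = 0) ?_ ?_ x
  · intro k x hx
    by_cases hk : k ≤ n
    · exact h.spec (hX.apply (h.δV k x hx)) (fun l hl => hν k l hk hl)
    · rw [h.top k (by omega)] at hx
      rw [(Submodule.mem_bot ℂ).1 hx, map_zero]
  · intro x y hx hy
    rw [map_add, hx, hy, add_zero]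

theorem Setup.eq_zero_of_deg_int (h : Setup V n δ I 𝔞) {ν : ℤ} {X : End ℂ R}
    (hX : Deg δ (ν : ℂ) X) (hν : (n : ℤ) < |ν|) : X = 0 := by
  apply h.eq_zero_of_deg hX
  intro k l hk hl hkl
  have h1 : ((k : ℤ) : ℂ) + ((ν : ℤ) : ℂ) = ((l : ℤ) : ℂ) := by simpa using hkl
  have h2 : (k : ℤ) + ν = l := by exact_mod_cast h1
  rw [lt_abs] at hν
  rcases hν with hν | hν <;> omega

theorem Deg.pow {ν : ℂ} {X : End ℂ R} (hX : Deg δ ν X) (k : ℕ) : Deg δ (k * ν) (X ^ k) := by
  induction k with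
  | zero => unfold Deg; simp [GW.br]
  | succ k ih =>
    rw [pow_succ]
    have := ih.mul hX
    have h2 : ((k + 1 : ℕ) : ℂ) * ν = k * ν + ν := by push_cast; ring
    rwa [h2]

/-- homogeneous operators of nonzero degree are nilpotent -/
theorem Setup.isNilpotent_of_deg (h : Setup V n δ I 𝔞) {ν : ℤ} {X : End ℂ R}
    (hX : Deg δ (ν : ℂ) X) (hν : ν ≠ 0) : IsNilpotent X := by
  refine ⟨n + 1, ?_⟩
  have h1 := hX.pow (n + 1)
  have h2 : (((n + 1 : ℕ) : ℂ)) * (ν : ℂ) = (((n + 1 : ℕ) * ν : ℤ) : ℂ) := by push_cast; ring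
  rw [h2] at h1
  apply h.eq_zero_of_deg_int h1
  rw [abs_mul]
  have h3 : 1 ≤ |ν| := Int.one_le_abs hν
  have h4 : |((n + 1 : ℕ) : ℤ)| = (n : ℤ) + 1 := by
    rw [abs_of_nonneg (by positivity)]; push_cast; rfl
  rw [h4]
  nlinarith

/-- `End R` is the sum of its homogeneous parts, and so is `𝔞` -/
theorem Setup.decomp (h : Setup V n δ I 𝔞) {p : End ℂ R → Prop}
    (h0 : ∀ μ : ℂ, ∀ X ∈ 𝔞, Deg δ μ X → p X) (hz : p 0)
    (hadd : ∀ X Y, p X → p Y → p (X + Y)) {X : End ℂ R} (hX : X ∈ 𝔞) : p X := by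
  have hss : δ.IsSemisimple := by
    let P : Polynomial ℂ := ∏ k ∈ Finset.range (n + 1), (Polynomial.X - Polynomial.C (k : ℂ))
    have hP : Polynomial.aeval δ P = 0 := by
      ext x
      rw [LinearMap.zero_apply]
      refine h.ind (p := fun x => Polynomial.aeval δ P x = 0) (fun k x hx => ?_)
        (fun x y hx hy => by rw [map_add, hx, hy, add_zero]) x
      by_cases hk : k ≤ n
      · rw [Module.End.aeval_apply_of_mem_apply_eq_smul (h.δV k x hx)]
        have : P.eval (k : ℂ) = 0 := by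
          rw [Polynomial.eval_prod]
          exact Finset.prod_eq_zero (i := k) (Finset.mem_range.2 (by omega)) (by simp)
        rw [this, zero_smul]
      · rw [h.top k (by omega)] at hx
        rw [(Submodule.mem_bot ℂ).1 hx, map_zero]
    refine Module.End.isSemisimple_of_squarefree_aeval_eq_zero ?_ hP
    refine (Polynomial.separable_prod_X_sub_C_iff'.2 ?_).squarefree
    intro a _ b _ hab
    exact_mod_cast hab
  have had := LieAlgebra.ad_isSemisimple_of_isSemisimple hss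
  have htop := had.iSup_eigenspace_eq_top
  have hst : ∀ Y ∈ 𝔞.toSubmodule, LieAlgebra.ad ℂ (End ℂ R) δ Y ∈ 𝔞.toSubmodule := by
    intro Y hY
    exact 𝔞.lie_mem h.mem_δ hY
  have h1 := Submodule.eq_iSup_inf_genEigenspace 1 hst htop
  have h2 : X ∈ ⨆ μ, 𝔞.toSubmodule ⊓ (LieAlgebra.ad ℂ (End ℂ R) δ).genEigenspace μ 1 := by
    rw [← h1]; exact hX
  clear hX h1
  induction h2 using Submodule.iSup_induction' with
  | mem μ X hX' =>
    refine h0 μ X hX'.1 ?_
    have h3 := hX'.2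
    have h4 : LieAlgebra.ad ℂ (End ℂ R) δ X = μ • X := Module.End.mem_eigenspace_iff.1 h3
    exact h4
  | zero => exact hz
  | add X Y _ _ hX hY => exact hadd X Y hX hY

/-- eigenvectors of `δ` are homogeneous -/
theorem Setup.mem_of_eigen (h : Setup V n δ I 𝔞) {y : R} {j : ℕ} (hy : δ y = (j : ℂ) • y) :
    y ∈ V ^ j := by
  classical
  let Q : Polynomial ℂ :=
    ∏ k ∈ (Finset.range (n + 1)).erase j, (Polynomial.X - Polynomial.C (k : ℂ))
  have h1 : ∀ x : R, Polynomial.aeval δ Q x ∈ V ^ j := by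
    refine h.ind (fun k x hx => ?_)
      (fun x y hx hy => by rw [map_add]; exact Submodule.add_mem _ hx hy)
    by_cases hkj : k = j
    · subst hkj
      rw [Module.End.aeval_apply_of_mem_apply_eq_smul (h.δV k x hx)]
      exact Submodule.smul_mem _ _ hx
    · by_cases hk : k ≤ n
      · rw [Module.End.aeval_apply_of_mem_apply_eq_smul (h.δV k x hx)]
        have : Q.eval (k : ℂ) = 0 := by
          rw [Polynomial.eval_prod]
          exact Finset.prod_eq_zero (i := k)
            (Finset.mem_erase.2 ⟨hkj, Finset.mem_range.2 (by omega)⟩) (by simp)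
        rw [this, zero_smul]
        exact Submodule.zero_mem _
      · rw [h.top k (by omega)] at hx
        rw [(Submodule.mem_bot ℂ).1 hx, map_zero]
        exact Submodule.zero_mem _
  have h2 := h1 y
  rw [Module.End.aeval_apply_of_mem_apply_eq_smul hy] at h2
  have h3 : Q.eval (j : ℂ) ≠ 0 := by
    rw [Polynomial.eval_prod]
    refine Finset.prod_ne_zero_iff.2 ?_
    intro k hk
    rw [Polynomial.eval_sub, Polynomial.eval_X, Polynomial.eval_C, sub_ne_zero]
    intro hjk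
    exact (Finset.mem_erase.1 hk).1 (by exact_mod_cast hjk.symm)
  have h4 := Submodule.smul_mem _ (Q.eval (j : ℂ))⁻¹ h2
  rwa [smul_smul, inv_mul_cancel₀ h3, one_smul] at h4

theorem Setup.U_deg (h : Setup V n δ I 𝔞) {y : R} (hy : y ∈ Submodule.span ℂ {(1 : R)} ⊔ V) {μ : ℂ}
    (hμ : δ y = μ • y) : (μ ≠ 0 → y ∈ V) ∧ (μ ≠ 1 → y ∈ Submodule.span ℂ {(1 : R)}) := by
  obtain ⟨a, ha, v, hv, rfl⟩ := Submodule.mem_sup.1 hy
  obtain ⟨c, rfl⟩ := Submodule.mem_span_singleton.1 ha
  have hδv : δ v = v := by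
    have := h.δV 1 v (h.V1 hv)
    simpa using this
  have h1 : v = μ • (c • (1 : R) + v) := by
    rw [← hμ, map_add, map_smul, h.δ1, smul_zero, zero_add, hδv]
  have h2 : v = μ • v := by
    have := congrArg δ h1
    rw [hδv, map_smul, map_add, map_smul, h.δ1, smul_zero, zero_add, hδv] at this
    exact this
  constructor
  · intro hμ0
    have h3 : μ • (c • (1 : R)) = 0 := by
      rw [smul_add, ← h2] at h1
      exact left_eq_add.1 (by rw [add_comm]; exact h1)
    rw [(smul_eq_zero.1 h3).resolve_left hμ0, zero_add]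
    exact hv
  · intro hμ1
    have h3 : (1 - μ) • v = 0 := by rw [sub_smul, one_smul, ← h2, sub_self]
    rw [(smul_eq_zero.1 h3).resolve_left (sub_ne_zero.2 (Ne.symm hμ1)), add_zero]
    exact ha

/-- an operator that commutes with the multiplications by elements of `V` is a multiplication -/
theorem Setup.eq_mul (h : Setup V n δ I 𝔞) {X : End ℂ R}
    (hX : ∀ u ∈ V, ∀ x, X (u * x) = u * X x) (x : R) : X x = x * X 1 := by
  refine h.ind (p := fun x => X x = x * X 1) ?_ ?_ x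
  · intro k
    induction k with
    | zero =>
      intro x hx
      rw [pow_zero] at hx
      obtain ⟨c, rfl⟩ := Submodule.mem_one.1 hx
      rw [Algebra.algebraMap_eq_smul_one, map_smul, smul_mul_assoc, one_mul]
    | succ k ih =>
      intro x hx
      rw [pow_succ'] at hx
      refine Submodule.mul_induction_on hx ?_ ?_
      · intro u hu y hy
        rw [hX u hu, ih y hy, mul_assoc]
      · intro a b ha hb
        rw [map_add, ha, hb, add_mul]
  · intro a b ha hb
    rw [map_add, ha, hb, add_mul]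

theorem Setup.comm_of_br (_ : Setup V n δ I 𝔞) {X : End ℂ R} (hX : ∀ u ∈ V, br X (mu u) = 0) :
    ∀ u ∈ V, ∀ x, X (u * x) = u * X x := by
  intro u hu x
  have h1 := congrArg (fun Y : End ℂ R => Y x) (hX u hu)
  have h2 : X (u * x) - u * X x = 0 := h1
  exact sub_eq_zero.1 h2

/-- there is nothing in degree at least two -/
theorem Setup.zero_of_ge (h : Setup V n δ I 𝔞) (j : ℕ) : ∀ (i : ℕ), 2 ≤ i → n < i + j →
    ∀ X ∈ 𝔞, Deg δ (i : ℂ) X → X = 0 := by
  induction j with
  | zero =>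
    intro i hi hn X _ hd
    have hd' : Deg δ ((i : ℤ) : ℂ) X := by simpa using hd
    apply h.eq_zero_of_deg_int hd'
    rw [Nat.abs_cast]; omega
  | succ j ih =>
    intro i hi hn X hX hd
    have h1 : ∀ u ∈ V, br X (mu u) = 0 := by
      intro u hu
      refine ih (i + 1) (by omega) (by omega) _ (br_mem hX (h.mem_mul u hu)) ?_
      have := hd.br (h.deg_mu hu)
      push_cast
      exact this
    have h2 : δ (X 1) = (i : ℂ) • X 1 := by
      have := hd.apply (x := 1) (μ := 0) (by rw [h.δ1, zero_smul])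
      rwa [zero_add] at this
    have h3 : X 1 ∈ V := (h.U_deg (h.one_mem X hX) h2).1 (by
      have : i ≠ 0 := by omega
      exact_mod_cast this)
    have h4 : X 1 = 0 := by
      have h5 := h.δV 1 _ (h.V1 h3)
      rw [h2] at h5
      have h6 : ((i : ℂ) - 1) • X 1 = 0 := by
        rw [sub_smul, h5]; simp
      refine (smul_eq_zero.1 h6).resolve_left (sub_ne_zero.2 ?_)
      have : i ≠ 1 := by omega
      exact_mod_cast this
    ext x
    rw [h.eq_mul (h.comm_of_br h1) x, h4, mul_zero]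
    rfl

theorem Setup.two (h : Setup V n δ I 𝔞) {X : End ℂ R} (hX : X ∈ 𝔞) (hd : Deg δ 2 X) : X = 0 :=
  h.zero_of_ge n 2 le_rfl (by omega) X hX (by simpa using hd)

/-- the part of degree one -/
theorem Setup.one (h : Setup V n δ I 𝔞) {X : End ℂ R} (hX : X ∈ 𝔞) (hd : Deg δ 1 X) :
    X 1 ∈ V ∧ X = mu (X 1) := by
  have h1 : ∀ u ∈ V, br X (mu u) = 0 := by
    intro u hu
    apply h.two (br_mem hX (h.mem_mul u hu))
    have := hd.br (h.deg_mu hu)
    rwa [show (1 : ℂ) + 1 = 2 by norm_num] at this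
  have h2 : δ (X 1) = (1 : ℂ) • X 1 := by
    have := hd.apply (x := 1) (μ := 0) (by rw [h.δ1, zero_smul])
    rwa [zero_add] at this
  refine ⟨(h.U_deg (h.one_mem X hX) h2).1 one_ne_zero, ?_⟩
  ext x
  rw [h.eq_mul (h.comm_of_br h1) x, mul_comm]
  rfl

/-- there is nothing in degree `-2` -/
theorem Setup.neg_two (h : Setup V n δ I 𝔞) {X : End ℂ R} (hX : X ∈ 𝔞) (hd : Deg δ (-2) X) :
    X = 0 := by
  have hd' : Deg δ ((-2 : ℤ) : ℂ) X := by push_cast; exact hd
  refine h.nil X hX (h.isNilpotent_of_deg hd' (by norm_num)) fun Y hY => ?_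
  refine h.decomp (p := fun Y => LinearMap.trace ℂ R (X * Y) = 0) ?_ ?_ ?_ hY
  · intro μ Y hY hdY
    by_cases hμ : μ = 2
    · subst hμ
      rw [h.two hY hdY, mul_zero, map_zero]
    · refine (hd.mul hdY).trace ?_
      intro h0
      apply hμ
      linear_combination h0
  · rw [mul_zero, map_zero]
  · intro A B hA hB
    rw [mul_add, map_add, hA, hB, add_zero]

/-- the trace form is nondegenerate on `V` -/
theorem Setup.nd (h : Setup V n δ I 𝔞) {v : R} (hv : v ∈ V)
    (hvg : ∀ g ∈ 𝔞, Deg δ (-1) g → LinearMap.trace ℂ R (mu v * g) = 0) : v = 0 := by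
  have hd' : Deg δ ((1 : ℤ) : ℂ) (mu v) := by push_cast; exact h.deg_mu hv
  have h1 : mu v = 0 := by
    refine h.nil _ (h.mem_mul v hv) (h.isNilpotent_of_deg hd' one_ne_zero) fun Y hY => ?_
    refine h.decomp (p := fun Y => LinearMap.trace ℂ R (mu v * Y) = 0) ?_ ?_ ?_ hY
    · intro μ Y hY hdY
      by_cases hμ : μ = -1
      · subst hμ
        exact hvg Y hY hdY
      · refine ((h.deg_mu hv).mul hdY).trace ?_
        intro h0
        apply hμ
        linear_combination h0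
    · rw [mul_zero, map_zero]
    · intro A B hA hB
      rw [mul_add, map_add, hA, hB, add_zero]
  have h2 := congrArg (fun Y : End ℂ R => Y 1) h1
  have h3 : v * 1 = 0 := h2
  rwa [mul_one] at h3

/-- if `[w, [w, g]] = 0` then `w` and `g` are orthogonal -/
theorem Setup.orth_of_br_br (h : Setup V n δ I 𝔞) {w : R} (hw : w ∈ V) {g : End ℂ R}
    (hd : Deg δ (-1) g) (hwg : br (mu w) (br (mu w) g) = 0) :
    LinearMap.trace ℂ R (mu w * g) = 0 := by
  have hz : IsNilpotent (br (mu w) g) :=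
    isNilpotent_of_comm (w := mu w) (f := g) rfl (sub_eq_zero.1 hwg)
  have hz0 : Deg δ 0 (br (mu w) g) := by
    have := (h.deg_mu hw).br hd
    rwa [show (1 : ℂ) + -1 = 0 by norm_num] at this
  have hcomm : Commute δ (br (mu w) g) := by
    unfold Deg at hz0
    rw [zero_smul] at hz0
    exact sub_eq_zero.1 hz0
  have h1 : LinearMap.trace ℂ R (δ * br (mu w) g) = 0 :=
    (LinearMap.isNilpotent_trace_of_isNilpotent (hcomm.isNilpotent_mul_left hz)).eq_zero
  have h2 : br δ (mu w) = mu w := by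
    have := h.deg_mu hw
    unfold Deg at this
    rwa [one_smul] at this
  have h3 : LinearMap.trace ℂ R (br δ (mu w) * g) = LinearMap.trace ℂ R (δ * br (mu w) g) := by
    unfold br
    rw [sub_mul, mul_sub, map_sub, map_sub]
    congr 1
    rw [mul_assoc, LinearMap.trace_mul_comm, mul_assoc]
  rw [← h2, h3, h1]

/-- the part of `𝔞` of degree `-1` -/
def low (δ : End ℂ R) (𝔞 : LieSubalgebra ℂ (End ℂ R)) : Submodule ℂ (End ℂ R) where
  carrier := {f | f ∈ 𝔞 ∧ Deg δ (-1) f}
  add_mem' := fun ha hb => ⟨add_mem ha.1 hb.1, ha.2.add hb.2⟩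
  zero_mem' := ⟨zero_mem _, by unfold Deg; simp [br]⟩
  smul_mem' := fun c _ ha => ⟨𝔞.toSubmodule.smul_mem c ha.1, ha.2.smul c⟩

theorem trace_sym (w : End ℂ R) (f g : End ℂ R) :
    LinearMap.trace ℂ R (br w (br w f) * g) = LinearMap.trace ℂ R (br w (br w g) * f) := by
  rw [trace_br_mul w (br w f) g, trace_br_mul w (br w g) f, LinearMap.trace_mul_comm]

theorem Setup.exists_low (h : Setup V n δ I 𝔞) {w : R} (hw : w ∈ V) :
    ∃ f ∈ 𝔞, Deg δ (-1) f ∧ br (mu w) (br (mu w) f) = (-2 : ℂ) • mu w := by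
  have hdeg1 : ∀ f : End ℂ R, Deg δ (-1) f → Deg δ 1 (br (mu w) (br (mu w) f)) := by
    intro f hf
    have := (h.deg_mu hw).br ((h.deg_mu hw).br hf)
    rwa [show (1 : ℂ) + (1 + -1) = 1 by norm_num] at this
  have hmem : ∀ f ∈ 𝔞, br (mu w) (br (mu w) f) ∈ 𝔞 := fun f hf =>
    br_mem (h.mem_mul w hw) (br_mem (h.mem_mul w hw) hf)
  let β : low δ 𝔞 →ₗ[ℂ] Module.Dual ℂ (low δ 𝔞) :=
    LinearMap.mk₂ ℂ (fun f g => LinearMap.trace ℂ R (br (mu w) (br (mu w) f.1) * g.1))
      (fun f f' g => by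
        rw [← map_add, ← add_mul, ← br_add, ← br_add]; rfl)
      (fun c f g => by
        rw [← map_smul, ← smul_mul_assoc, ← br_smul, ← br_smul]; rfl)
      (fun f g g' => by rw [← map_add, ← mul_add]; rfl)
      (fun c f g => by rw [← map_smul, ← mul_smul_comm]; rfl)
  let l : Module.Dual ℂ (low δ 𝔞) :=
    { toFun := fun g => LinearMap.trace ℂ R (mu w * g.1)
      map_add' := fun g g' => by rw [← map_add, ← mul_add]; rfl
      map_smul' := fun c g => by
        rw [RingHom.id_apply, ← map_smul, ← mul_smul_comm]; rfl }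
  have hβ : ∀ f g : low δ 𝔞, β f g = LinearMap.trace ℂ R (br (mu w) (br (mu w) f.1) * g.1) :=
    fun f g => rfl
  have hl : l ∈ LinearMap.range β.dualMap := by
    rw [LinearMap.range_dualMap_eq_dualAnnihilator_ker, Submodule.mem_dualAnnihilator]
    intro g hg
    have h1 : br (mu w) (br (mu w) g.1) = 0 := by
      obtain ⟨h2, h3⟩ := h.one (hmem _ g.2.1) (hdeg1 _ g.2.2)
      have h4 : (br (mu w) (br (mu w) g.1)) 1 = 0 := by
        refine h.nd h2 fun g' hg' hd' => ?_
        rw [← h3]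
        have := LinearMap.congr_fun (LinearMap.mem_ker.1 hg) ⟨g', hg', hd'⟩
        exact this
      rw [h3, h4]
      ext x
      simp
    exact h.orth_of_br_br hw g.2.2 h1
  obtain ⟨Φ, hΦ⟩ := hl
  obtain ⟨f₁, rfl⟩ := (Module.evalEquiv ℂ (low δ 𝔞)).surjective Φ
  have h5 : ∀ g : low δ 𝔞, LinearMap.trace ℂ R (br (mu w) (br (mu w) f₁.1) * g.1) =
      LinearMap.trace ℂ R (mu w * g.1) := by
    intro g
    have := LinearMap.congr_fun hΦ g
    have h6 : β g f₁ = l g := this
    rw [hβ, trace_sym] at h6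
    exact h6
  have h7 : br (mu w) (br (mu w) f₁.1) - mu w = 0 := by
    obtain ⟨h2, h3⟩ := h.one (sub_mem (hmem _ f₁.2.1) (h.mem_mul w hw))
      ((hdeg1 _ f₁.2.2).sub (h.deg_mu hw))
    have h4 : (br (mu w) (br (mu w) f₁.1) - mu w) 1 = 0 := by
      refine h.nd h2 fun g' hg' hd' => ?_
      rw [← h3, sub_mul, map_sub, h5 ⟨g', hg', hd'⟩, sub_self]
    rw [h3, h4]
    ext x
    simp
  refine ⟨(-2 : ℂ) • f₁.1, 𝔞.toSubmodule.smul_mem _ f₁.2.1, f₁.2.2.smul _, ?_⟩
  rw [br_smul, br_smul, sub_eq_zero.1 h7]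

end Pool.Agent.K6.H85.GW
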