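import Pool.Agent.K6.H85.GW.Alg

/-!
# The dual Lefschetz operators
-/

set_option autoImplicit false
set_option linter.unusedSectionVars false

namespace Pool.Agent.K6.H85.GW

open Module

attribute [local instance 100] LieRing.ofAssociativeRing

variable {R : Type*} [CommRing R] [Algebra ℂ R] [FiniteDimensional ℂ R]
  {V : Submodule ℂ R} {n : ℕ} {δ : End ℂ R} {I : R →ₗ[ℂ] ℂ} {𝔞 : LieSubalgebra ℂ (End ℂ R)}

theorem br_add_left (X Y Z : End ℂ R) : br (X + Y) Z = br X Z + br Y Z := by
  unfold br; noncomm_ring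

theorem br_sub_left (X Y Z : End ℂ R) : br (X - Y) Z = br X Z - br Y Z := by
  unfold br; noncomm_ring

theorem br_smul_left (c : ℂ) (X Y : End ℂ R) : br (c • X) Y = c • br X Y := by
  unfold br; rw [mul_smul_comm, smul_mul_assoc, smul_sub]

theorem br_one_left (X : End ℂ R) : br 1 X = 0 := by unfold br; simp

theorem br_one_right (X : End ℂ R) : br X 1 = 0 := by unfold br; simp

/-- three commutation relations -/
theorem three_rel {w f h' g d : End ℂ R} (hh : br w f = h') (hhw : br h' w = (2 : ℂ) • w)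
    (hfg : br f g = 0) (hd : br h' g = d - (2 : ℂ) • g) :
    br f (br w g) = (2 : ℂ) • g - d ∧
    br f (br w (br w g)) = (2 : ℂ) • br w g - br w d - br w d ∧
    br f (br w (br w (br w g))) = -((3 : ℂ) • br w (br w d)) := by
  have hfw : br f w = -h' := by rw [← hh, br_skew]
  have h1 : br f (br w g) = (2 : ℂ) • g - d := by
    rw [br_jac, hfw, hfg, br, br, neg_mul, mul_neg, mul_zero, zero_mul, sub_self, add_zero]
    have : -(h' * g) - -(g * h') = -(br h' g) := by unfold br; noncomm_ring
    rw [this, hd, neg_sub]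
  have hneg : ∀ X : End ℂ R, br (-h') X = -br h' X := by
    intro X; unfold br; noncomm_ring
  have hsw : ∀ X : End ℂ R, br ((2 : ℂ) • w) X = (2 : ℂ) • br w X := fun X => br_smul_left _ _ _
  have h2' : br h' (br w g) = br w d := by
    rw [br_jac, hhw, hsw, hd, br_sub, br_smul]
    abel
  have h2 : br f (br w (br w g)) = (2 : ℂ) • br w g - br w d - br w d := by
    rw [br_jac, hfw, hneg, h2', h1, br_sub, br_smul]
    abel
  have h3' : br h' (br w (br w g)) = (2 : ℂ) • br w (br w g) + br w (br w d) := by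
    rw [br_jac, hhw, hsw, h2']
  refine ⟨h1, h2, ?_⟩
  rw [br_jac, hfw, hneg, h3', h2, br_sub, br_sub, br_smul]
  module

/-- **The dual Lefschetz operator.** -/
theorem Setup.exists_dual (h : Setup V n δ I 𝔞) (hn : 1 ≤ n) {w : R} (hw : w ∈ V)
    (hwn : I (w ^ n) ≠ 0) :
    ∃ f ∈ 𝔞, Deg δ (-1) f ∧ br (mu w) f = (2 : ℂ) • δ - (n : ℂ) • (1 : End ℂ R) := by
  obtain ⟨f, hf, hfd, hfw⟩ := h.exists_low hw
  refine ⟨f, hf, hfd, ?_⟩
  obtain ⟨h', hh⟩ : ∃ h', br (mu w) f = h' := ⟨_, rfl⟩
  rw [hh] at hfw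
  have hhm : h' ∈ 𝔞 := by rw [← hh]; exact br_mem (h.mem_mul w hw) hf
  have hhd : Deg δ 0 h' := by
    have := (h.deg_mu hw).br hfd
    rwa [show (1 : ℂ) + -1 = 0 by norm_num, hh] at this
  have hhw : br h' (mu w) = (2 : ℂ) • mu w := by
    rw [br_skew, hfw, ← neg_smul, neg_neg]
  -- powers of w
  have hwk : ∀ k : ℕ, w ^ k ∈ V ^ k := fun k => Submodule.pow_mem_pow _ hw k
  have hw0 : w ^ n ≠ 0 := fun h0 => hwn (by rw [h0, map_zero])
  have hwn1 : w ^ (n + 1) = 0 := by
    have := hwk (n + 1)
    rw [h.top (n + 1) (by omega)] at this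
    exact (Submodule.mem_bot ℂ).1 this
  have h11 : δ 1 = (0 : ℂ) • (1 : R) := by rw [h.δ1, zero_smul]
  have hf1 : f 1 = 0 := by
    refine h.spec (μ := 0 + -1) (hfd.apply h11) ?_
    intro k _ hk
    have : ((k + 1 : ℕ) : ℂ) = 0 := by push_cast; rw [← hk]; ring
    exact absurd this (by exact_mod_cast Nat.succ_ne_zero k)
  obtain ⟨c, hc⟩ : ∃ c : ℂ, c • (1 : R) = h' 1 := by
    have h1 := (h.U_deg (μ := 0 + 0) (h.one_mem h' hhm) (hhd.apply h11)).2 (by norm_num)
    exact Submodule.mem_span_singleton.1 h1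
  have hpow : ∀ x : R, h' (w * x) = w * h' x + (2 : ℂ) • (w * x) := by
    intro x
    have h1 := congrArg (fun Y : End ℂ R => Y x) hhw
    have h2 : h' (w * x) - w * h' x = (2 : ℂ) • (w * x) := h1
    rw [← h2]; abel
  have hfpow : ∀ x : R, f (w * x) = w * f x - h' x := by
    intro x
    have h1 := congrArg (fun Y : End ℂ R => Y x) hh
    have h2 : w * f x - f (w * x) = h' x := h1
    rw [← h2]; abel
  have hhwk : ∀ k : ℕ, h' (w ^ k) = (c + 2 * k) • w ^ k := by
    intro k
    induction k with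
    | zero => simp [← hc]
    | succ k ih =>
      rw [pow_succ', hpow, ih, mul_smul_comm, ← add_smul]
      push_cast
      ring_nf
  have hfwk : ∀ k : ℕ, f (w ^ (k + 1)) = (-((k + 1) * (c + k)) : ℂ) • w ^ k := by
    intro k
    induction k with
    | zero =>
      rw [pow_succ', hfpow, pow_zero, hf1, mul_zero, zero_sub, ← hc, ← neg_smul]
      congr 1
      push_cast
      ring
    | succ k ih =>
      rw [pow_succ', hfpow, ih, hhwk, mul_smul_comm, ← pow_succ', ← sub_smul]
      congr 1
      push_cast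
      ring
  have hcn : c = -n := by
    have h1 := hfwk n
    rw [hwn1, map_zero] at h1
    have h2 := (smul_eq_zero.1 h1.symm).resolve_right hw0
    rw [neg_eq_zero, mul_eq_zero] at h2
    have h3 : (n : ℂ) + 1 ≠ 0 := by exact_mod_cast Nat.succ_ne_zero n
    have h4 := h2.resolve_left h3
    linear_combination h4
  -- the difference
  obtain ⟨D, hD⟩ : ∃ D, D = h' - (2 : ℂ) • δ + (n : ℂ) • (1 : End ℂ R) := ⟨_, rfl⟩
  have hD1 : D 1 = 0 := by
    rw [hD]
    change h' 1 - (2 : ℂ) • δ 1 + (n : ℂ) • (1 : R) = 0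
    rw [← hc, h.δ1, smul_zero, sub_zero, hcn, ← add_smul, neg_add_cancel, zero_smul]
  have hbrD : ∀ X : End ℂ R, ∀ i : ℂ, Deg δ i X → br D X = br h' X - (2 * i) • X := by
    intro X i hX
    unfold Deg at hX
    rw [hD, br_add_left, br_sub_left, br_smul_left, br_smul_left, hX, br_one_left, smul_zero,
      add_zero, smul_smul]
  have hDw : br D (mu w) = 0 := by
    rw [hbrD _ 1 (h.deg_mu hw), hhw, mul_one, sub_self]
  have hDu : ∀ u ∈ V, D u ∈ V ∧ br D (mu u) = mu (D u) := by
    intro u hu
    have h1 : br D (mu u) ∈ 𝔞 := by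
      rw [hbrD _ 1 (h.deg_mu hu)]
      exact sub_mem (br_mem hhm (h.mem_mul u hu)) (𝔞.toSubmodule.smul_mem _ (h.mem_mul u hu))
    have h2 : Deg δ 1 (br D (mu u)) := by
      rw [hbrD _ 1 (h.deg_mu hu)]
      have := hhd.br (h.deg_mu hu)
      rw [zero_add] at this
      exact this.sub ((h.deg_mu hu).smul _)
    obtain ⟨h3, h4⟩ := h.one h1 h2
    have h5 : br D (mu u) 1 = D u := by
      rw [br_apply]
      change D (u * 1) - u * D 1 = D u
      rw [hD1, mul_one, mul_zero, sub_zero]
    rw [h5] at h3 h4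
    exact ⟨h3, h4⟩
  have hDmul : ∀ u ∈ V, ∀ x, D (u * x) = u * D x + D u * x := by
    intro u hu x
    have h1 := congrArg (fun Y : End ℂ R => Y x) (hDu u hu).2
    have h2 : D (u * x) - u * D x = D u * x := h1
    rw [← h2]; abel
  -- the action on `low`
  have hlow : ∀ g ∈ low δ 𝔞, br D g ∈ low δ 𝔞 := by
    intro g hg
    rw [hbrD _ (-1) hg.2]
    refine ⟨sub_mem (br_mem hhm hg.1) (𝔞.toSubmodule.smul_mem _ hg.1), ?_⟩
    have := hhd.br hg.2
    rw [zero_add] at this
    exact this.sub (hg.2.smul _)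
  have hrel : ∀ g ∈ low δ 𝔞, br f (br (mu w) g) = (2 : ℂ) • g - br D g ∧
      br f (br (mu w) (br (mu w) g)) =
        (2 : ℂ) • br (mu w) g - br (mu w) (br D g) - br (mu w) (br D g) ∧
      br f (br (mu w) (br (mu w) (br (mu w) g))) = -((3 : ℂ) • br (mu w) (br (mu w) (br D g))) := by
    intro g hg
    refine three_rel (d := br D g) hh hhw ?_ ?_
    · apply h.neg_two (br_mem hf hg.1)
      have := hfd.br hg.2
      rwa [show (-1 : ℂ) + -1 = -2 by norm_num] at this
    · rw [hbrD _ (-1) hg.2]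
      module
  have hcub : ∀ g ∈ low δ 𝔞, br D (br D (br D g)) - (3 : ℂ) • br D (br D g) +
      (2 : ℂ) • br D g = 0 := by
    -- `ad w ^ 2` kills the image of `D`
    have s1 : ∀ g ∈ low δ 𝔞, br (mu w) (br (mu w) (br D g)) = 0 := by
      intro g hg
      have h1 : br (mu w) (br (mu w) (br (mu w) g)) = 0 := by
        apply h.two
        · exact br_mem (h.mem_mul w hw) (br_mem (h.mem_mul w hw) (br_mem (h.mem_mul w hw) hg.1))
        · have := (h.deg_mu hw).br ((h.deg_mu hw).br ((h.deg_mu hw).br hg.2))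
          rwa [show (1 : ℂ) + (1 + (1 + -1)) = 2 by norm_num] at this
      have h2 := (hrel g hg).2.2
      rw [h1, br_zero_right] at h2
      have h3 := neg_eq_zero.1 h2.symm
      exact (smul_eq_zero.1 h3).resolve_left (by norm_num)
    have s2 : ∀ g ∈ low δ 𝔞, br (mu w) (br D g - br D (br D g)) = 0 := by
      intro g hg
      have h2 := (hrel (br D g) (hlow g hg)).2.1
      rw [s1 g hg, br_zero_right] at h2
      have h3 : (2 : ℂ) • br (mu w) (br D g - br D (br D g)) = 0 := by
        rw [br_sub, h2]; module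
      exact (smul_eq_zero.1 h3).resolve_left (by norm_num)
    intro g hg
    have h2 := (hrel (br D g - br D (br D g))
      (Submodule.sub_mem _ (hlow g hg) (hlow _ (hlow g hg)))).1
    rw [s2 g hg, br_zero_right, br_sub] at h2
    rw [h2]; module
  -- transfer to `V`
  have htr : ∀ u ∈ V, ∀ g : End ℂ R, LinearMap.trace ℂ R (mu (D u) * g) =
      -LinearMap.trace ℂ R (mu u * br D g) := by
    intro u hu g
    rw [← (hDu u hu).2, trace_br_mul]
  have hDV : ∀ u ∈ V, D (D (D u)) + (3 : ℂ) • D (D u) + (2 : ℂ) • D u = 0 := by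
    intro u hu
    have m1 := (hDu u hu).1
    have m2 := (hDu _ m1).1
    have m3 := (hDu _ m2).1
    refine h.nd (V.add_mem (V.add_mem m3 (V.smul_mem _ m2)) (V.smul_mem _ m1)) fun g hg hgd => ?_
    have hgl : g ∈ low δ 𝔞 := ⟨hg, hgd⟩
    have e1 : mu (D (D (D u)) + (3 : ℂ) • D (D u) + (2 : ℂ) • D u) =
        mu (D (D (D u))) + (3 : ℂ) • mu (D (D u)) + (2 : ℂ) • mu (D u) := by
      ext x; simp [add_mul]
    rw [e1, add_mul, add_mul, smul_mul_assoc, smul_mul_assoc, map_add, map_add, map_smul, map_smul,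
      htr _ m2, htr _ m1, htr _ m1, htr _ hu, htr _ hu, htr _ hu]
    have h1 := congrArg (fun Y => LinearMap.trace ℂ R (mu u * Y)) (hcub g hgl)
    simp only [mul_add, mul_sub, mul_smul_comm, map_add, map_sub, map_smul, mul_zero, map_zero,
      smul_eq_mul] at h1
    simp only [smul_eq_mul]
    linear_combination -h1
  -- no negative eigenvalues
  have htopline : ∀ x ∈ V ^ n, ∃ c' : ℂ, x = c' • w ^ n := by
    intro x hx
    refine ⟨I x / I (w ^ n), ?_⟩
    rw [← sub_eq_zero]
    apply h.pd
    intro y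
    have hxm : x - (I x / I (w ^ n)) • w ^ n ∈ V ^ n :=
      Submodule.sub_mem _ hx (Submodule.smul_mem _ _ (hwk n))
    refine h.ind (p := fun y => I ((x - (I x / I (w ^ n)) • w ^ n) * y) = 0) ?_ ?_ y
    · intro k y hy
      rcases Nat.eq_zero_or_pos k with hk | hk
      · subst hk
        rw [pow_zero] at hy
        obtain ⟨a, rfl⟩ := Submodule.mem_one.1 hy
        rw [Algebra.algebraMap_eq_smul_one, mul_smul_comm, mul_one, map_smul, map_sub, map_smul,
          smul_eq_mul (I x / I (w ^ n)), div_mul_cancel₀ _ hwn, sub_self, smul_zero]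
      · have h1 : (x - (I x / I (w ^ n)) • w ^ n) * y ∈ V ^ (n + k) := by
          rw [pow_add]; exact Submodule.mul_mem_mul hxm hy
        rw [h.top _ (by omega)] at h1
        rw [(Submodule.mem_bot ℂ).1 h1, map_zero]
    · intro a b ha hb
      rw [mul_add, map_add, ha, hb, add_zero]
  have hDwx : ∀ x : R, D (w * x) = w * D x := by
    intro x
    have h1 := congrArg (fun Y : End ℂ R => Y x) hDw
    have h2 : D (w * x) - w * D x = 0 := h1
    exact sub_eq_zero.1 h2
  have hDwk : ∀ (k : ℕ) (x : R), D (w ^ k * x) = w ^ k * D x := by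
    intro k
    induction k with
    | zero => intro x; simp
    | succ k ih => intro x; rw [pow_succ', mul_assoc, hDwx, ih, mul_assoc]
  have hneg : ∀ u ∈ V, ∀ μ : ℕ, 1 ≤ μ → D u = (-(μ : ℂ)) • u → u = 0 := by
    intro u hu μ hμ hDu'
    have hμ0 : (μ : ℂ) ≠ 0 := by
      have : μ ≠ 0 := by omega
      exact_mod_cast this
    -- `w ^ (n-1) u = 0`
    obtain ⟨m, rfl⟩ : ∃ m, n = m + 1 := ⟨n - 1, by omega⟩
    have hmem : w ^ m * u ∈ V ^ (m + 1) := by
      rw [pow_succ]; exact Submodule.mul_mem_mul (hwk m) hu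
    obtain ⟨c', hc'⟩ := htopline _ hmem
    have h0 : w ^ m * u = 0 := by
      have h1 : D (w ^ m * u) = (-(μ : ℂ)) • (w ^ m * u) := by
        rw [hDwk, hDu', mul_smul_comm]
      have h2 : D (w ^ m * u) = 0 := by
        rw [hc', map_smul]
        have := hDwk (m + 1) 1
        rw [mul_one, hD1, mul_zero] at this
        rw [this, smul_zero]
      rw [h2] at h1
      exact (smul_eq_zero.1 h1.symm).resolve_left (neg_ne_zero.2 hμ0)
    -- `f u` is a scalar
    obtain ⟨a, ha⟩ : ∃ a : ℂ, a • (1 : R) = f u := by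
      have h1 := h.one_mem _ (br_mem (h.mem_mul u hu) hf)
      have h2 : br (mu u) f 1 = -f u := by
        rw [br_apply]
        change u * f 1 - f (u * 1) = -f u
        rw [hf1, mul_zero, mul_one, zero_sub]
      have h3 : δ (-f u) = (0 : ℂ) • (-f u) := by
        have h4 := h.δV 1 u (h.V1 hu)
        have h5 := hfd.apply h4
        rw [map_neg, h5]
        simp
      rw [h2] at h1
      obtain ⟨a, ha⟩ := Submodule.mem_span_singleton.1 ((h.U_deg h1 h3).2 (by norm_num))
      exact ⟨-a, by rw [neg_smul, ha, neg_neg]⟩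
    have hhu : h' u = (2 - (m + 1 : ℕ) - μ : ℂ) • u := by
      have h1 : h' = D + (2 : ℂ) • δ - ((m + 1 : ℕ) : ℂ) • (1 : End ℂ R) := by rw [hD]; module
      have h2 : h' u = D u + (2 : ℂ) • δ u - ((m + 1 : ℕ) : ℂ) • u := by rw [h1]; rfl
      rw [h2, hDu', h.δV 1 u (h.V1 hu)]
      push_cast
      module
    have hhwku : ∀ k : ℕ, h' (w ^ k * u) = (2 - (m + 1 : ℕ) - μ + 2 * k : ℂ) • (w ^ k * u) := by
      intro k
      induction k with
      | zero => simp [hhu]
      | succ k ih =>
        rw [pow_succ', mul_assoc, hpow, ih, mul_smul_comm, ← add_smul]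
        push_cast
        ring_nf
    have hfk : ∀ k : ℕ, f (w ^ (k + 1) * u) = a • w ^ (k + 1) -
        ((k + 1) * (k + 1 + 1 - (m + 1 : ℕ) - μ) : ℂ) • (w ^ k * u) := by
      intro k
      induction k with
      | zero =>
        rw [pow_one, hfpow, ← ha, hhu, pow_zero, one_mul, mul_smul_comm, mul_one]
        congr 2
        push_cast
        ring
      | succ k ih =>
        rw [pow_succ', mul_assoc, hfpow, ih, hhwku, mul_sub, mul_smul_comm, mul_smul_comm,
          ← mul_assoc, ← pow_succ' w k, ← pow_succ' w (k + 1), sub_sub, ← add_smul]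
        congr 2
        push_cast
        ring
    have ha0 : a = 0 := by
      have h1 := hfk m
      have h2 : w ^ (m + 1) * u = 0 := by rw [pow_succ', mul_assoc, h0, mul_zero]
      rw [h2, h0, map_zero, smul_zero, sub_zero] at h1
      exact (smul_eq_zero.1 h1.symm).resolve_right hw0
    have hdesc : ∀ j : ℕ, j ≤ m → w ^ (m - j) * u = 0 := by
      intro j
      induction j with
      | zero => intro _; exact h0
      | succ j ih =>
        intro hj
        have h1 := hfk (m - (j + 1))
        rw [show m - (j + 1) + 1 = m - j by omega, ih (by omega), map_zero, ha0, zero_smul,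
          zero_sub] at h1
        have h2 := neg_eq_zero.1 h1.symm
        refine (smul_eq_zero.1 h2).resolve_left ?_
        refine mul_ne_zero ?_ ?_
        · exact_mod_cast Nat.succ_ne_zero (m - (j + 1))
        · intro h3
          have h4 : ((m - (j + 1) : ℕ) : ℂ) + 1 + 1 = ((m + 1 : ℕ) : ℂ) + μ := by
            linear_combination h3
          have h5 : (m - (j + 1)) + 1 + 1 = (m + 1) + μ := by exact_mod_cast h4
          omega
    have := hdesc m le_rfl
    rwa [Nat.sub_self, pow_zero, one_mul] at this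
  have hDV0 : ∀ u ∈ V, D u = 0 := by
    intro u hu
    have m1 := (hDu u hu).1
    have m2 := (hDu _ m1).1
    have m3 := (hDu _ m2).1
    have h1 : D (D u) + D u = 0 := by
      refine hneg _ (V.add_mem m2 m1) 2 (by norm_num) ?_
      rw [map_add]
      have := hDV u hu
      have h2 : D (D (D u)) = -((3 : ℂ) • D (D u)) - (2 : ℂ) • D u := by
        rw [← sub_eq_zero, ← this]; module
      rw [h2]
      push_cast
      module
    refine hneg _ m1 1 le_rfl ?_
    rw [eq_neg_of_add_eq_zero_left h1]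
    push_cast
    module
  have hD0 : D = 0 := by
    ext x
    rw [h.eq_mul (X := D) (fun u hu x => by rw [hDmul u hu, hDV0 u hu, zero_mul, add_zero]) x, hD1,
      mul_zero]
    rfl
  rw [hh]
  rw [hD0] at hD
  rw [← sub_eq_zero, hD]
  module

/-- an operator of degree `-1` lowers the degree -/
theorem Setup.low_mem (h : Setup V n δ I 𝔞) {f : End ℂ R} (hf : Deg δ (-1) f) {k : ℕ} {x : R}
    (hx : x ∈ V ^ (k + 1)) : f x ∈ V ^ k := by
  apply h.mem_of_eigen
  have h1 := hf.apply (h.δV _ _ hx)
  rw [h1]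
  congr 1
  push_cast
  ring

theorem Setup.low_zero (h : Setup V n δ I 𝔞) {f : End ℂ R} (hf : Deg δ (-1) f) {x : R}
    (hx : x ∈ V ^ 0) : f x = 0 := by
  refine h.spec (μ := (0 : ℕ) + -1) (hf.apply (h.δV _ _ hx)) ?_
  intro k _ hk
  have : ((k + 1 : ℕ) : ℂ) = 0 := by push_cast; rw [← hk]; push_cast; ring
  exact absurd this (by exact_mod_cast Nat.succ_ne_zero k)

/-- **Hard Lefschetz.** -/
theorem Setup.hard_lefschetz (h : Setup V n δ I 𝔞) {w : R} (hw : w ∈ V)
    {f : End ℂ R} (hfd : Deg δ (-1) f)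
    (hwf : br (mu w) f = (2 : ℂ) • δ - (n : ℂ) • (1 : End ℂ R)) :
    ∀ k : ℕ, 2 * k ≤ n → ∀ x ∈ V ^ k, w ^ (n - 2 * k) * x = 0 → x = 0 := by
  have hfpow : ∀ (k : ℕ), ∀ x ∈ V ^ k, f (w * x) = w * f x - (2 * k - n : ℂ) • x := by
    intro k x hx
    have h1 := congrArg (fun Y : End ℂ R => Y x) hwf
    have h2 : w * f x - f (w * x) = (2 : ℂ) • δ x - (n : ℂ) • x := h1
    rw [h.δV k x hx, smul_smul, ← sub_smul] at h2
    rw [← h2]; abel
  have hwx : ∀ (m k : ℕ), ∀ x ∈ V ^ k, w ^ m * x ∈ V ^ (m + k) := by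
    intro m k x hx
    rw [pow_add]
    exact Submodule.mul_mem_mul (Submodule.pow_mem_pow _ hw m) hx
  have hfm : ∀ (k : ℕ), ∀ x ∈ V ^ k, ∀ m : ℕ, f (w ^ (m + 1) * x) =
      w ^ (m + 1) * f x - ((m + 1) * (2 * k - n + m) : ℂ) • (w ^ m * x) := by
    intro k x hx m
    induction m with
    | zero =>
      rw [pow_one, hfpow k x hx, pow_zero, one_mul]
      congr 2
      push_cast
      ring
    | succ m ih =>
      rw [pow_succ' w (m + 1), mul_assoc, hfpow _ _ (hwx (m + 1) k x hx), ih, mul_sub,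
        mul_smul_comm, ← mul_assoc w (w ^ m), ← pow_succ' w m, ← mul_assoc, sub_sub, ← add_smul]
      congr 2
      push_cast
      ring
  intro k
  induction k with
  | zero =>
    intro _ x hx hx0
    have hfx : f x = 0 := h.low_zero hfd hx
    have hdesc : ∀ j : ℕ, j ≤ n → w ^ (n - j) * x = 0 := by
      intro j
      induction j with
      | zero => intro _; simpa using hx0
      | succ j ih =>
        intro hj
        have h1 := hfm 0 x hx (n - (j + 1))
        rw [show n - (j + 1) + 1 = n - j by omega, ih (by omega), map_zero, hfx, mul_zero,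
          zero_sub] at h1
        have h2 := neg_eq_zero.1 h1.symm
        refine (smul_eq_zero.1 h2).resolve_left ?_
        refine mul_ne_zero ?_ ?_
        · exact_mod_cast Nat.succ_ne_zero (n - (j + 1))
        · intro h3
          have h4 : ((n - (j + 1) : ℕ) : ℂ) = (n : ℕ) := by
            push_cast at h3 ⊢
            linear_combination h3
          have h5 : n - (j + 1) = n := by exact_mod_cast h4
          omega
    have := hdesc n le_rfl
    rwa [Nat.sub_self, pow_zero, one_mul] at this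
  | succ k ih =>
    intro hk x hx hx0
    have h1 := hfm (k + 1) x hx (n - 2 * (k + 1))
    have hx1 : w ^ (n - 2 * (k + 1) + 1) * x = 0 := by rw [pow_succ', mul_assoc, hx0, mul_zero]
    rw [hx1, hx0, map_zero, smul_zero, sub_zero] at h1
    have hfx : f x = 0 := by
      refine ih (by omega) _ (h.low_mem hfd hx) ?_
      rw [show n - 2 * k = n - 2 * (k + 1) + 1 + 1 by omega, pow_succ', mul_assoc, ← h1, mul_zero]
    have hdesc : ∀ j : ℕ, j ≤ n - 2 * (k + 1) → w ^ (n - 2 * (k + 1) - j) * x = 0 := by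
      intro j
      induction j with
      | zero => intro _; simpa using hx0
      | succ j ih =>
        intro hj
        have h1 := hfm (k + 1) x hx (n - 2 * (k + 1) - (j + 1))
        rw [show n - 2 * (k + 1) - (j + 1) + 1 = n - 2 * (k + 1) - j by omega, ih (by omega),
          map_zero, hfx, mul_zero, zero_sub] at h1
        have h2 := neg_eq_zero.1 h1.symm
        refine (smul_eq_zero.1 h2).resolve_left ?_
        refine mul_ne_zero ?_ ?_
        · exact_mod_cast Nat.succ_ne_zero (n - 2 * (k + 1) - (j + 1))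
        · intro h3
          have h4 : ((2 * (k + 1) + (n - 2 * (k + 1) - (j + 1)) : ℕ) : ℂ) = (n : ℕ) := by
            push_cast at h3 ⊢
            linear_combination h3
          have h5 : 2 * (k + 1) + (n - 2 * (k + 1) - (j + 1)) = n := by exact_mod_cast h4
          omega
    have := hdesc _ le_rfl
    rwa [Nat.sub_self, pow_zero, one_mul] at this

end Pool.Agent.K6.H85.GW
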