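import Pool.Agent.K6.H85.GW.Geo
import Pool.Agent.K6.H85.GW.Dual
import Pool.Agent.Y348.GW.Crit

/-!
# The Jordan–Lefschetz property of the ring generated by `H²`
-/

set_option autoImplicit false
set_option linter.unusedSectionVars false

open scoped Manifold Topology

namespace Pool.Agent.K6.H85.GW

open H956GW Module Pool.Agent.Y348.GW

attribute [local instance 100] LieRing.ofAssociativeRing

section bij

variable {R : Type*} [CommRing R] [Algebra ℂ R] [FiniteDimensional ℂ R]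
  {V : Submodule ℂ R} {n : ℕ} {δ : End ℂ R} {I : R →ₗ[ℂ] ℂ} {𝔞 : LieSubalgebra ℂ (End ℂ R)}

theorem Setup.eq_zero_of_pair (h : Setup V n δ I 𝔞) {k : ℕ} (hk : k ≤ n) {z : R}
    (hz : z ∈ V ^ (n - k)) (hzy : ∀ y ∈ V ^ k, I (z * y) = 0) : z = 0 := by
  apply h.pd
  intro y
  refine h.ind (p := fun y => I (z * y) = 0) ?_ ?_ y
  · intro l y hy
    by_cases hl : l = k
    · subst hl; exact hzy y hy
    · refine h.I0 (n - k + l) (by omega) _ ?_
      rw [pow_add]; exact Submodule.mul_mem_mul hz hy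
  · intro a b ha hb
    rw [mul_add, map_add, ha, hb, add_zero]

theorem Setup.surj (h : Setup V n δ I 𝔞) {w : R} (hw : w ∈ V) {k : ℕ} (hk : 2 * k ≤ n)
    (hinj : ∀ x ∈ V ^ k, w ^ (n - 2 * k) * x = 0 → x = 0) :
    ∀ z ∈ V ^ (n - k), ∃ x ∈ V ^ k, w ^ (n - 2 * k) * x = z := by
  have hmap : ∀ x ∈ V ^ k, w ^ (n - 2 * k) * x ∈ V ^ (n - k) := by
    intro x hx
    rw [show n - k = (n - 2 * k) + k by omega, pow_add]
    exact Submodule.mul_mem_mul (Submodule.pow_mem_pow _ hw _) hx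
  let L : ↥(V ^ k) →ₗ[ℂ] ↥(V ^ (n - k)) :=
    ((LinearMap.mulLeft ℂ (w ^ (n - 2 * k))).domRestrict (V ^ k)).codRestrict _
      (fun x => hmap x x.2)
  have hL : Function.Injective L := by
    rw [injective_iff_map_eq_zero]
    intro x hx
    exact Subtype.ext (hinj x x.2 (congrArg Subtype.val hx))
  let P : ↥(V ^ (n - k)) →ₗ[ℂ] Module.Dual ℂ ↥(V ^ k) :=
    LinearMap.mk₂ ℂ (fun z y => I (z.1 * y.1))
      (fun z z' y => by rw [← map_add, ← add_mul]; rfl)
      (fun c z y => by rw [← map_smul, ← smul_mul_assoc]; rfl)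
      (fun z y y' => by rw [← map_add, ← mul_add]; rfl)
      (fun c z y => by rw [← map_smul, ← mul_smul_comm]; rfl)
  have hP : Function.Injective P := by
    rw [injective_iff_map_eq_zero]
    intro z hz
    refine Subtype.ext (h.eq_zero_of_pair (by omega) z.2 fun y hy => ?_)
    exact LinearMap.congr_fun hz ⟨y, hy⟩
  have h1 := LinearMap.finrank_le_finrank_of_injective hL
  have h2 := LinearMap.finrank_le_finrank_of_injective hP
  rw [Subspace.dual_finrank_eq] at h2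
  have hs := (LinearMap.injective_iff_surjective_of_finrank_eq_finrank (le_antisymm h1 h2)).1 hL
  intro z hz
  obtain ⟨x, hx⟩ := hs ⟨z, hz⟩
  exact ⟨x, x.2, congrArg Subtype.val hx⟩

end bij

/-- the grading operator exists -/
theorem exists_grading {R : Type*} [CommRing R] [Algebra ℂ R] {V : Submodule ℂ R} {n : ℕ}
    {I : R →ₗ[ℂ] ℂ} (gen : ⨆ k : ℕ, V ^ k = ⊤)
    (I0 : ∀ k : ℕ, k ≠ n → ∀ x ∈ V ^ k, I x = 0) (pd : ∀ x, (∀ y, I (x * y) = 0) → x = 0) :
    ∃ δ : End ℂ R, ∀ k : ℕ, ∀ x ∈ V ^ k, δ x = (k : ℂ) • x := by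
  have hind : iSupIndep (fun k : ℕ => V ^ k) := by
    intro k
    rw [Submodule.disjoint_def]
    intro x hx hx'
    apply pd
    intro y
    have hy : y ∈ ⨆ k : ℕ, V ^ k := by rw [gen]; trivial
    induction hy using Submodule.iSup_induction' with
    | mem l y hy =>
      by_cases hl : k + l = n
      · have hx'' : x ∈ ⨆ (j : ℕ) (_ : j ≠ k), V ^ j := hx'
        rw [iSup_subtype'] at hx''
        clear hx hx'
        induction hx'' using Submodule.iSup_induction' with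
        | mem j x hx =>
          refine I0 (j.1 + l) ?_ _ ?_
          · have := j.2; omega
          · rw [pow_add]; exact Submodule.mul_mem_mul hx hy
        | zero => rw [zero_mul, map_zero]
        | add a b _ _ ha hb => rw [add_mul, map_add, ha, hb, add_zero]
      · refine I0 (k + l) hl _ ?_
        rw [pow_add]; exact Submodule.mul_mem_mul hx hy
    | zero => rw [mul_zero, map_zero]
    | add a b _ _ ha hb => rw [mul_add, map_add, ha, hb, add_zero]
  classical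
  have hint := DirectSum.isInternal_submodule_of_iSupIndep_of_iSup_eq_top hind gen
  let e := LinearEquiv.ofBijective (DirectSum.coeLinearMap fun k : ℕ => V ^ k) hint
  let D : DirectSum ℕ (fun k => ↥(V ^ k)) →ₗ[ℂ] R :=
    DirectSum.toModule ℂ ℕ R (fun k => (k : ℂ) • (V ^ k).subtype)
  refine ⟨D ∘ₗ e.symm.toLinearMap, fun k x hx => ?_⟩
  have h1 : e (DirectSum.lof ℂ ℕ (fun k => ↥(V ^ k)) k ⟨x, hx⟩) = x := by
    change DirectSum.coeLinearMap (fun k : ℕ => V ^ k) _ = x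
    rw [DirectSum.coeLinearMap_lof]
  have h2 : e.symm x = DirectSum.lof ℂ ℕ (fun k => ↥(V ^ k)) k ⟨x, hx⟩ := by
    rw [LinearEquiv.symm_apply_eq]; exact h1.symm
  change D (e.symm x) = _
  rw [h2]
  simp only [D, DirectSum.toModule_lof]
  rfl

section main

variable {H : Type} [CommRing H] [Algebra ℂ H] {n : ℕ} {dg : ℕ → Submodule ℂ H}

/-- the classes of degree `k` in the subring generated by the classes of degree one -/
def Rk (dg : ℕ → Submodule ℂ H) (k : ℕ) : Submodule ℂ H :=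
  Subalgebra.toSubmodule (Algebra.adjoin ℂ (dg 1 : Set H)) ⊓ dg k

theorem filt_two (hmono : dg 0 = Submodule.span ℂ {1}) :
    filt dg 2 = Submodule.span ℂ {(1 : H)} ⊔ dg 1 := by
  rw [← hmono]
  apply le_antisymm
  · refine iSup₂_le fun k hk => ?_
    have : k = 0 ∨ k = 1 := by omega
    rcases this with rfl | rfl
    · exact le_sup_left
    · exact le_sup_right
  · exact sup_le (le_filt (by norm_num)) (le_filt (by norm_num))

theorem gen_of_adjoin {S : Type*} [NormedAddCommGroup S] [NormedSpace ℂ S] (c : S →ₗ[ℂ] H) :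
    ⨆ k : ℕ, (LinearMap.range (cRmap c)) ^ k = ⊤ := by
  have hmul : ∀ x ∈ ⨆ k : ℕ, (LinearMap.range (cRmap c)) ^ k,
      ∀ y ∈ ⨆ k : ℕ, (LinearMap.range (cRmap c)) ^ k,
      x * y ∈ ⨆ k : ℕ, (LinearMap.range (cRmap c)) ^ k := by
    intro x hx y hy
    have h1 := Submodule.mul_mem_mul hx hy
    rw [Submodule.iSup_mul] at h1
    refine (iSup_le fun i => ?_ : _ ≤ ⨆ k : ℕ, (LinearMap.range (cRmap c)) ^ k) h1
    rw [Submodule.mul_iSup]
    refine iSup_le fun j => ?_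
    rw [← pow_add]
    exact le_iSup (fun k : ℕ => (LinearMap.range (cRmap c)) ^ k) (i + j)
  have key : ∀ (x : H) (hx : x ∈ Rsub c), (⟨x, hx⟩ : Rsub c) ∈
      ⨆ k : ℕ, (LinearMap.range (cRmap c)) ^ k := by
    intro x hx
    induction hx using Algebra.adjoin_induction with
    | mem x hx =>
      obtain ⟨v, rfl⟩ := hx
      refine Submodule.mem_iSup_of_mem 1 ?_
      rw [pow_one]
      exact ⟨v, rfl⟩
    | algebraMap z =>
      refine Submodule.mem_iSup_of_mem 0 ?_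
      rw [pow_zero, Submodule.mem_one]
      exact ⟨z, rfl⟩
    | add a b ha hb iha ihb => exact Submodule.add_mem _ iha ihb
    | mul a b ha hb iha ihb => exact hmul _ iha _ ihb
  rw [eq_top_iff]
  rintro ⟨x, hx⟩ -
  exact key x hx

/-- **The Jordan–Lefschetz property.** -/
theorem main.{u₁, u₂, u₃, u₄} [Module.Finite ℂ H] (hn : 1 ≤ n) (hd0 : dg 0 = Submodule.span ℂ {1})
    (hmul : ∀ i j, ∀ x ∈ dg i, ∀ y ∈ dg j, x * y ∈ dg (i + j))
    (hbot : ∀ k, n < k → ∀ x ∈ dg k, x = 0) (I : H →ₗ[ℂ] ℂ)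
    (hI : ∀ k, k ≠ n → ∀ x ∈ dg k, I x = 0) (hI' : ∀ x ∈ dg n, I x = 0 → x = 0)
    (hPD : ∀ x : H, (∀ y : H, I (x * y) = 0) → x = 0)
    (w₀ : H) (hw₀ : w₀ ∈ dg 1) (hw₀n : I (w₀ ^ n) ≠ 0)
    (B : Type) [AddCommGroup B] (g : GWNumbers B H) (hg : g.IsAspherical I)
    (A : H → H → H → H) (hA : IsGWConnection I (dg 1) g.prepotential A)
    (S : Type) [NormedAddCommGroup S] [NormedSpace ℂ S] (c : S ≃ₗ[ℂ] dg 1) (t₀ : S)
    (hloc : IsLocallySubquotientOfSemisimple.{u₁, u₂, u₃, u₄}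
      (fun t v h => A (c t) (c v) h) (filt dg) t₀) :
    ∃ Λ : H → (H →ₗ[ℂ] H),
      (∀ w ∈ dg 1, I (w ^ n) ≠ 0 →
        (∀ x ∈ Rk dg 0, Λ w x = 0) ∧ (∀ k, ∀ x ∈ Rk dg (k + 1), Λ w x ∈ Rk dg k) ∧
        (∀ k, ∀ x ∈ Rk dg k, w * Λ w x - Λ w (w * x) = (2 * k - n : ℂ) • x) ∧
        (∀ k, 2 * k ≤ n →
          Set.BijOn (fun x => w ^ (n - 2 * k) * x) (Rk dg k) (Rk dg (n - k)))) ∧
      ∀ w ∈ dg 1, ∀ w' ∈ dg 1, I (w ^ n) ≠ 0 → I (w' ^ n) ≠ 0 →
        ∀ x ∈ Algebra.adjoin ℂ (dg 1 : Set H), Λ w (Λ w' x) = Λ w' (Λ w x) := by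
  -- Poincaré duality for the subring
  have hpdR : ∀ b ∈ Algebra.adjoin ℂ (dg 1 : Set H),
      (∀ a ∈ Algebra.adjoin ℂ (dg 1 : Set H), I (a * b) = 0) → b = 0 := by
    intro b hb hab
    by_contra hb0
    exact criterion.{u₁, u₂, u₃, u₄} hd0 hmul hbot I hI hI' hPD w₀ hw₀ hw₀n b hb hb0 hab B g hg A
      hA S c t₀ hloc
  obtain ⟨G, _, _, M, _, _, _, _, Γ, _, _, E, _, _, E', _, _, X, Y, m₀, hX, hY, hloc⟩ := hloc
  have h10 : (1 : H) ∈ dg 0 := by rw [hd0]; exact Submodule.mem_span_singleton_self _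
  have : FiniteDimensional ℂ E' := by
    obtain ⟨-, T, -⟩ := hloc
    exact LinearEquiv.finiteDimensional (T t₀)
  let c' : S →ₗ[ℂ] H := (dg 1).subtype ∘ₗ c.toLinearMap
  have hc' : ∀ v, c' v ∈ dg 1 := fun v => (c v).2
  have hrange : Set.range c' = (dg 1 : Set H) := by
    ext x
    constructor
    · rintro ⟨v, rfl⟩; exact hc' v
    · intro hx
      refine ⟨c.symm ⟨x, hx⟩, ?_⟩
      change ((c (c.symm ⟨x, hx⟩) : dg 1) : H) = x
      rw [c.apply_symm_apply]
  have hrange' : LinearMap.range c' = dg 1 := SetLike.coe_injective hrange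
  have hRs : Rsub c' = Algebra.adjoin ℂ (dg 1 : Set H) := by
    change Algebra.adjoin ℂ (Set.range c') = _
    rw [hrange]
  have hpow : ∀ v k, c' v ^ k ∈ dg k := by
    intro v k
    induction k with
    | zero => rw [pow_zero]; exact h10
    | succ k ih => rw [pow_succ]; exact hmul _ _ _ ih _ (hc' v)
  obtain ⟨𝔞, 𝒢, hN, hmulA, hδA, hone⟩ := exists_normalised G M Γ E' c' (K := n) hn
    (fun x => hbot (n + 1) (Nat.lt_succ_self n) _ (hpow x (n + 1))) Set.univ
    (fun t v h => A (c t) (c v) h)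
    (fun t _ v h => connection_eq g hg hPD hA (hc' t) (hc' v) h) (filt dg)
    (p₀ := 0) (p₁ := 2) (by rw [filt_zero, hd0]) (by rw [filt_two hd0, hrange']) t₀ Y
    (hX.subquotient hY) m₀ hloc
  -- the graded ring
  have hfinR : FiniteDimensional ℂ (Rsub c') :=
    inferInstanceAs (FiniteDimensional ℂ (Subalgebra.toSubmodule (Rsub c')))
  let V' : Submodule ℂ (Rsub c') := LinearMap.range (cRmap c')
  let I' : Rsub c' →ₗ[ℂ] ℂ := I ∘ₗ (Rsub c').val.toLinearMap
  have hgen : ⨆ k : ℕ, V' ^ k = ⊤ := gen_of_adjoin c'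
  have hVdg : ∀ k : ℕ, ∀ x ∈ V' ^ k, (x : H) ∈ dg k := by
    intro k
    induction k with
    | zero =>
      intro x hx
      rw [pow_zero] at hx
      obtain ⟨z, rfl⟩ := Submodule.mem_one.1 hx
      change algebraMap ℂ H z ∈ dg 0
      rw [Algebra.algebraMap_eq_smul_one]
      exact (dg 0).smul_mem _ h10
    | succ k ih =>
      intro x hx
      rw [pow_succ] at hx
      refine Submodule.mul_induction_on hx ?_ ?_
      · rintro a ha _ ⟨v, rfl⟩
        exact hmul _ _ _ (ih a ha) _ (hc' v)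
      · intro a b ha hb
        exact (dg (k + 1)).add_mem ha hb
  have hI0 : ∀ k : ℕ, k ≠ n → ∀ x ∈ V' ^ k, I' x = 0 := fun k hk x hx => hI k hk _ (hVdg k x hx)
  have hpd' : ∀ x : Rsub c', (∀ y, I' (x * y) = 0) → x = 0 := by
    intro x hx
    apply Subtype.ext
    apply hpdR _ (by rw [← hRs]; exact x.2)
    intro a ha
    have h1 := hx ⟨a, by rw [hRs]; exact ha⟩
    rw [mul_comm] at h1
    exact h1
  obtain ⟨δ, hδ⟩ := exists_grading hgen hI0 hpd'
  have hset : Setup V' n δ I' 𝔞 :=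
    { gen := hgen
      top := fun k hk => by
        rw [eq_bot_iff]
        intro x hx
        rw [Submodule.mem_bot]
        exact Subtype.ext (hbot k hk _ (hVdg k x hx))
      δV := hδ
      I0 := hI0
      pd := hpd'
      mem_mul := by
        rintro _ ⟨v, rfl⟩
        exact hmulA v
      mem_δ := hδA δ fun v k =>
        hδ k _ (Submodule.pow_mem_pow V' (LinearMap.mem_range_self (cRmap c') v) k)
      one_mem := hone
      nil := fun X hX hXn hXt => hN.eq_zero_of_isNilpotent hX hXt hXn }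
  -- homogeneous elements
  have hδmul : ∀ (l : ℕ), ∀ y ∈ V' ^ l, ∀ x, δ (x * y) = δ x * y + (l : ℂ) • (x * y) := by
    intro l y hy x
    refine hset.ind (p := fun x => δ (x * y) = δ x * y + (l : ℂ) • (x * y)) ?_ ?_ x
    · intro k x hx
      have h1 : x * y ∈ V' ^ (k + l) := by rw [pow_add]; exact Submodule.mul_mem_mul hx hy
      rw [hδ _ _ h1, hδ _ _ hx, smul_mul_assoc, ← add_smul]
      push_cast
      rfl
    · intro a b ha hb
      rw [add_mul, map_add, map_add, ha, hb, add_mul, smul_add]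
      abel
  have hIδ : ∀ x, I' (δ x) = (n : ℂ) * I' x := by
    intro x
    refine hset.ind (p := fun x => I' (δ x) = (n : ℂ) * I' x) ?_ ?_ x
    · intro k x hx
      rw [hδ _ _ hx, map_smul, smul_eq_mul]
      by_cases hk : k = n
      · rw [hk]
      · rw [hI0 k hk x hx, mul_zero, mul_zero]
    · intro a b ha hb
      rw [map_add, map_add, ha, hb, map_add, mul_add]
  have hhom : ∀ k : ℕ, ∀ x : Rsub c', (x : H) ∈ dg k → x ∈ V' ^ k := by
    intro k x hx
    apply hset.mem_of_eigen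
    rw [← sub_eq_zero]
    apply hpd'
    intro y
    refine hset.ind (p := fun y => I' ((δ x - (k : ℂ) • x) * y) = 0) ?_ ?_ y
    · intro l y hy
      have h1 : I' (δ x * y) = ((n : ℂ) - l) * I' (x * y) := by
        have h2 := congrArg I' (hδmul l y hy x)
        rw [hIδ, map_add, map_smul, smul_eq_mul] at h2
        linear_combination -h2
      rw [sub_mul, smul_mul_assoc, map_sub, map_smul, smul_eq_mul, h1]
      by_cases hkl : k + l = n
      · rw [← hkl]; push_cast; ring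
      · have h3 : I' (x * y) = 0 := hI (k + l) hkl _ (hmul _ _ _ hx _ (hVdg l y hy))
        rw [h3]; ring
    · intro a b ha hb
      rw [mul_add, map_add, ha, hb, add_zero]
  have hRk : ∀ k : ℕ, ∀ x ∈ Rk dg k, ∃ y ∈ V' ^ k, (y : H) = x := by
    rintro k x ⟨hx, hx'⟩
    have hx2 : x ∈ Rsub c' := by rw [hRs]; exact hx
    exact ⟨⟨x, hx2⟩, hhom k ⟨x, hx2⟩ hx', rfl⟩
  have hRk' : ∀ k : ℕ, ∀ y ∈ V' ^ k, (y : H) ∈ Rk dg k := by
    intro k y hy
    refine ⟨?_, hVdg k y hy⟩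
    change (y : H) ∈ Algebra.adjoin ℂ (dg 1 : Set H)
    rw [← hRs]
    exact y.2
  have hlift : ∀ w ∈ dg 1, ∃ u ∈ V', (u : H) = w := by
    intro w hw
    obtain ⟨v, hv⟩ : w ∈ Set.range c' := by rw [hrange]; exact hw
    exact ⟨cRmap c' v, ⟨v, rfl⟩, hv⟩
  -- the dual operators
  have hΛ : ∀ w : H, ∃ Λw : H →ₗ[ℂ] H, w ∈ dg 1 → I (w ^ n) ≠ 0 →
      ∃ u ∈ V', (u : H) = w ∧ ∃ f ∈ 𝔞, Deg δ (-1) f ∧
        br (mu u) f = (2 : ℂ) • δ - (n : ℂ) • (1 : End ℂ (Rsub c')) ∧
        ∀ r : Rsub c', Λw r = (f r : Rsub c') := by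
    intro w
    by_cases hw : w ∈ dg 1 ∧ I (w ^ n) ≠ 0
    · obtain ⟨u, hu, huw⟩ := hlift w hw.1
      have hun : I' (u ^ n) ≠ 0 := by
        change I (((u ^ n : Rsub c') : H)) ≠ 0
        rw [Subalgebra.coe_pow, huw]
        exact hw.2
      obtain ⟨f, hf, hfd, hfw⟩ := hset.exists_dual hn hu hun
      obtain ⟨Λw, hΛw⟩ := LinearMap.exists_extend (p := Subalgebra.toSubmodule (Rsub c'))
        ((Rsub c').val.toLinearMap ∘ₗ f)
      exact ⟨Λw, fun _ _ => ⟨u, hu, huw, f, hf, hfd, hfw, fun r => LinearMap.congr_fun hΛw r⟩⟩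
    · exact ⟨0, fun h1 h2 => absurd ⟨h1, h2⟩ hw⟩
  choose Λ hΛ using hΛ
  refine ⟨Λ, ?_, ?_⟩
  · intro w hw hwn
    obtain ⟨u, hu, huw, f, hf, hfd, hfw, hΛf⟩ := hΛ w hw hwn
    refine ⟨?_, ?_, ?_, ?_⟩
    · intro x hx
      obtain ⟨y, hy, rfl⟩ := hRk 0 x hx
      rw [hΛf, hset.low_zero hfd hy]
      rfl
    · intro k x hx
      obtain ⟨y, hy, rfl⟩ := hRk (k + 1) x hx
      rw [hΛf]
      exact hRk' k _ (hset.low_mem hfd hy)
    · intro k x hx
      obtain ⟨y, hy, rfl⟩ := hRk k x hx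
      have h1 := congrArg (fun Z : End ℂ (Rsub c') => Z y) hfw
      have h2 : u * f y - f (u * y) = (2 : ℂ) • δ y - (n : ℂ) • y := h1
      rw [hδ k y hy, smul_smul, ← sub_smul] at h2
      have h3 := congrArg (fun z : Rsub c' => (z : H)) h2
      have h4 : Λ w (w * (y : H)) = ((f (u * y) : Rsub c') : H) := by
        rw [← hΛf, Subalgebra.coe_mul, huw]
      rw [h4, hΛf, ← huw]
      exact h3
    · intro k hk
      have hinj := hset.hard_lefschetz hu hfd hfw k hk
      have hcoe : ∀ y : Rsub c', ((u ^ (n - 2 * k) * y : Rsub c') : H) =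
          w ^ (n - 2 * k) * (y : H) := by
        intro y
        rw [Subalgebra.coe_mul, Subalgebra.coe_pow, huw]
      refine ⟨?_, ?_, ?_⟩
      · intro x hx
        obtain ⟨y, hy, rfl⟩ := hRk k x hx
        have h1 : u ^ (n - 2 * k) * y ∈ V' ^ (n - k) := by
          rw [show n - k = (n - 2 * k) + k by omega, pow_add]
          exact Submodule.mul_mem_mul (Submodule.pow_mem_pow _ hu _) hy
        have h2 := hRk' (n - k) _ h1
        rwa [hcoe] at h2
      · intro x hx x' hx' hxx'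
        obtain ⟨y, hy, rfl⟩ := hRk k x hx
        obtain ⟨y', hy', rfl⟩ := hRk k x' hx'
        have h1 : y - y' = 0 := by
          refine hinj _ (Submodule.sub_mem _ hy hy') (Subtype.ext ?_)
          rw [mul_sub]
          change ((u ^ (n - 2 * k) * y : Rsub c') : H) - ((u ^ (n - 2 * k) * y' : Rsub c') : H) = 0
          rw [hcoe, hcoe]
          exact sub_eq_zero.2 hxx'
        rw [sub_eq_zero.1 h1]
      · intro z hz
        obtain ⟨z', hz', rfl⟩ := hRk (n - k) z hz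
        obtain ⟨y, hy, hyz⟩ := hset.surj hu hk hinj z' hz'
        refine ⟨y, hRk' k y hy, ?_⟩
        change w ^ (n - 2 * k) * (y : H) = _
        rw [← hcoe, hyz]
  · intro w hw w' hw' hwn hwn' x hx
    obtain ⟨u, hu, huw, f, hf, hfd, hfw, hΛf⟩ := hΛ w hw hwn
    obtain ⟨u', hu', huw', f', hf', hfd', hfw', hΛf'⟩ := hΛ w' hw' hwn'
    rw [← hRs] at hx
    have h1 : br f f' = 0 := by
      apply hset.neg_two (br_mem hf hf')
      have := hfd.br hfd'
      rwa [show (-1 : ℂ) + -1 = -2 by norm_num] at this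
    have h2 : f (f' ⟨x, hx⟩) = f' (f ⟨x, hx⟩) := by
      have := congrArg (fun Z : End ℂ (Rsub c') => Z ⟨x, hx⟩) h1
      exact sub_eq_zero.1 this
    have h3 : Λ w' x = ((f' ⟨x, hx⟩ : Rsub c') : H) := hΛf' ⟨x, hx⟩
    have h4 : Λ w x = ((f ⟨x, hx⟩ : Rsub c') : H) := hΛf ⟨x, hx⟩
    rw [h3, h4, hΛf, hΛf', h2]

end main

end Pool.Agent.K6.H85.GW
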