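import Mathlib

/-!
# Two lemmas on traces

(1) Let `𝔞` be a Lie algebra of endomorphisms of a finite-dimensional space `R`, normalised by a
set `𝒢` of automorphisms of `R` that leaves no proper nonzero subspace of `R` invariant. A nilpotent
element of `𝔞` that is orthogonal to `𝔞` for the trace form is zero.

(2) If `z = [w, f]` commutes with `w` then `z` is nilpotent (Jacobson's lemma).
-/

set_option autoImplicit false

namespace Pool.Agent.K6.H85.GW

open Module

set_option linter.unusedSectionVars false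

attribute [local instance 100] LieRing.ofAssociativeRing

variable {R : Type*} [AddCommGroup R] [Module ℂ R] [FiniteDimensional ℂ R]

/-- The part of `𝔞` orthogonal to `𝔞`, a Lie algebra. -/
def orth (𝔞 : LieSubalgebra ℂ (End ℂ R)) : LieSubalgebra ℂ (End ℂ R) where
  carrier := {X | X ∈ 𝔞 ∧ ∀ Y ∈ 𝔞, LinearMap.trace ℂ R (X * Y) = 0}
  add_mem' := by
    rintro X Y ⟨hX, hX'⟩ ⟨hY, hY'⟩
    refine ⟨add_mem hX hY, fun Z hZ => ?_⟩
    rw [add_mul, map_add, hX' Z hZ, hY' Z hZ, add_zero]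
  zero_mem' := ⟨zero_mem _, fun Z _ => by rw [zero_mul, map_zero]⟩
  smul_mem' := by
    rintro c X ⟨hX, hX'⟩
    refine ⟨𝔞.toSubmodule.smul_mem c hX, fun Z hZ => ?_⟩
    rw [smul_mul_assoc, map_smul, hX' Z hZ, smul_zero]
  lie_mem' := by
    rintro X Y ⟨hX, hX'⟩ ⟨hY, hY'⟩
    refine ⟨𝔞.lie_mem hX hY, fun Z hZ => ?_⟩
    have h1 := hX' ⁅Y, Z⁆ (𝔞.lie_mem hY hZ)
    rw [LieRing.of_associative_ring_bracket] at h1 ⊢
    have h2 : LinearMap.trace ℂ R ((X * Y - Y * X) * Z) =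
        LinearMap.trace ℂ R (X * (Y * Z - Z * Y)) := by
      rw [sub_mul, mul_sub, map_sub, map_sub]
      rw [mul_assoc, mul_assoc Y X Z, LinearMap.trace_mul_comm ℂ Y (X * Z), mul_assoc X Z Y]
    rw [h2, h1]

theorem mem_orth {𝔞 : LieSubalgebra ℂ (End ℂ R)} {X : End ℂ R} :
    X ∈ orth 𝔞 ↔ X ∈ 𝔞 ∧ ∀ Y ∈ 𝔞, LinearMap.trace ℂ R (X * Y) = 0 := Iff.rfl

/-- `g X g⁻¹` -/
noncomputable def cj (g : R ≃ₗ[ℂ] R) (X : End ℂ R) : End ℂ R :=
  g.toLinearMap ∘ₗ X ∘ₗ g.symm.toLinearMap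

theorem cj_mul (g : R ≃ₗ[ℂ] R) (X Y : End ℂ R) : cj g (X * Y) = cj g X * cj g Y := by
  ext x; simp [cj]

theorem cj_sub (g : R ≃ₗ[ℂ] R) (X Y : End ℂ R) : cj g (X - Y) = cj g X - cj g Y := by
  ext x; simp [cj]

theorem cj_symm_cj (g : R ≃ₗ[ℂ] R) (X : End ℂ R) : cj g.symm (cj g X) = X := by
  ext x; simp [cj]

theorem cj_cj_symm (g : R ≃ₗ[ℂ] R) (X : End ℂ R) : cj g (cj g.symm X) = X := by
  ext x; simp [cj]

theorem trace_cj (g : R ≃ₗ[ℂ] R) (X : End ℂ R) :
    LinearMap.trace ℂ R (cj g X) = LinearMap.trace ℂ R X :=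
  LinearMap.trace_conj' X g

theorem cj_apply (g : R ≃ₗ[ℂ] R) (X : End ℂ R) (x : R) : cj g X (g x) = g (X x) := by
  simp [cj]

/-- the hypotheses on `𝒢` -/
structure Normalises (𝒢 : Set (R ≃ₗ[ℂ] R)) (𝔞 : LieSubalgebra ℂ (End ℂ R)) : Prop where
  conj : ∀ g ∈ 𝒢, ∀ X ∈ 𝔞, cj g X ∈ 𝔞
  symm : ∀ g ∈ 𝒢, g.symm ∈ 𝒢
  irred : ∀ N : Submodule ℂ R, (∀ g ∈ 𝒢, ∀ x ∈ N, g x ∈ N) → N = ⊥ ∨ N = ⊤

theorem Normalises.orth_conj {𝒢 : Set (R ≃ₗ[ℂ] R)} {𝔞 : LieSubalgebra ℂ (End ℂ R)}
    (h : Normalises 𝒢 𝔞) {g : R ≃ₗ[ℂ] R} (hg : g ∈ 𝒢) {X : End ℂ R} (hX : X ∈ orth 𝔞) :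
    cj g X ∈ orth 𝔞 := by
  refine ⟨h.conj g hg X hX.1, fun Y hY => ?_⟩
  have h1 := hX.2 (cj g.symm Y) (h.conj _ (h.symm g hg) Y hY)
  rw [← trace_cj g, cj_mul, cj_cj_symm] at h1
  exact h1

/-- if the trace form of a Lie algebra of endomorphisms vanishes, its commutators have a common
nonzero kernel -/
theorem exists_common_kernel [Nontrivial R] (K : LieSubalgebra ℂ (End ℂ R))
    (h : ∀ X ∈ K, ∀ Y ∈ K, LinearMap.trace ℂ R (X * Y) = 0) :
    ∃ r : R, r ≠ 0 ∧ ∀ X ∈ K, ∀ Y ∈ K, ⁅X, Y⁆ r = 0 := by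
  have h0 : LieModule.traceForm ℂ K R = 0 := by
    ext ⟨x, hx⟩ ⟨y, hy⟩
    exact h x hx y hy
  have h1 := LieModule.isNilpotent_derivedSeries_of_traceForm_eq_zero h0
  have h2 : Nontrivial (LieModule.maxTrivSubmodule ℂ (LieAlgebra.derivedSeries ℂ K 1) R) :=
    LieModule.nontrivial_max_triv_of_isNilpotent ℂ (LieAlgebra.derivedSeries ℂ K 1) R
  obtain ⟨⟨r, hr⟩, hr0⟩ := exists_ne (0 : LieModule.maxTrivSubmodule ℂ
    (LieAlgebra.derivedSeries ℂ K 1) R)
  refine ⟨r, fun h => hr0 (Subtype.ext h), fun X hX Y hY => ?_⟩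
  have h3 : (⁅(⟨X, hX⟩ : K), (⟨Y, hY⟩ : K)⁆ : K) ∈ LieAlgebra.derivedSeries ℂ K 1 := by
    rw [LieAlgebra.derivedSeries_def, LieAlgebra.derivedSeriesOfIdeal_succ,
      LieAlgebra.derivedSeriesOfIdeal_zero]
    exact LieSubmodule.lie_mem_lie (LieSubmodule.mem_top _) (LieSubmodule.mem_top _)
  exact (LieModule.mem_maxTrivSubmodule ℂ _ R r).1 hr ⟨_, h3⟩

/-- **Lemma (1).** -/
theorem Normalises.eq_zero_of_isNilpotent {𝒢 : Set (R ≃ₗ[ℂ] R)} {𝔞 : LieSubalgebra ℂ (End ℂ R)}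
    (h : Normalises 𝒢 𝔞) {X : End ℂ R} (hX : X ∈ 𝔞)
    (hXt : ∀ Y ∈ 𝔞, LinearMap.trace ℂ R (X * Y) = 0) (hXn : IsNilpotent X) : X = 0 := by
  rcases subsingleton_or_nontrivial R with hR | hR
  · ext x; exact Subsingleton.elim _ _
  -- the orthogonal is commutative
  let N₁ : Submodule ℂ R :=
    { carrier := {r | ∀ X ∈ orth 𝔞, ∀ Y ∈ orth 𝔞, ⁅X, Y⁆ r = 0}
      add_mem' := fun {a b} ha hb X hX Y hY => by rw [map_add, ha X hX Y hY, hb X hX Y hY, add_zero]
      zero_mem' := fun X _ Y _ => map_zero _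
      smul_mem' := fun c a ha X hX Y hY => by rw [map_smul, ha X hX Y hY, smul_zero] }
  have hN₁ : N₁ = ⊤ := by
    refine (h.irred N₁ ?_).resolve_left ?_
    · intro g hg r hr X hX Y hY
      have h1 := hr _ (h.orth_conj (h.symm g hg) hX) _ (h.orth_conj (h.symm g hg) hY)
      have h2 : ⁅cj g.symm X, cj g.symm Y⁆ = cj g.symm ⁅X, Y⁆ := by
        simp only [LieRing.of_associative_ring_bracket, cj_sub, cj_mul]
      rw [h2] at h1
      have h3 := cj_apply g (cj g.symm ⁅X, Y⁆) r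
      rw [cj_cj_symm, h1, map_zero] at h3
      exact h3
    · obtain ⟨r, hr0, hr⟩ := exists_common_kernel (orth 𝔞)
        (fun X hX Y hY => hX.2 Y hY.1)
      intro hbot
      have : r ∈ N₁ := hr
      rw [hbot] at this
      exact hr0 ((Submodule.mem_bot ℂ).1 this)
  have hcomm : ∀ X ∈ orth 𝔞, ∀ Y ∈ orth 𝔞, ⁅X, Y⁆ = 0 := by
    intro X hX Y hY
    ext r
    have : r ∈ N₁ := by rw [hN₁]; trivial
    exact this X hX Y hY
  have hab : IsLieAbelian (orth 𝔞) := ⟨fun x y => Subtype.ext (hcomm x x.2 y y.2)⟩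
  -- common kernel of the nilpotent elements
  let N₂ : Submodule ℂ R :=
    { carrier := {r | ∀ X ∈ orth 𝔞, IsNilpotent X → X r = 0}
      add_mem' := fun {a b} ha hb X hX hX' => by rw [map_add, ha X hX hX', hb X hX hX', add_zero]
      zero_mem' := fun X _ _ => map_zero _
      smul_mem' := fun c a ha X hX hX' => by rw [map_smul, ha X hX hX', smul_zero] }
  have hN₂ : N₂ = ⊤ := by
    refine (h.irred N₂ ?_).resolve_left ?_
    · intro g hg r hr X hX hXn
      have hn : IsNilpotent (cj g.symm X) := by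
        obtain ⟨k, hk⟩ := hXn
        refine ⟨k, ?_⟩
        have : ∀ k : ℕ, (cj g.symm X) ^ k = cj g.symm (X ^ k) := by
          intro k
          induction k with
          | zero => ext x; simp [cj]
          | succ k ih => rw [pow_succ, ih, pow_succ, cj_mul]
        rw [this, hk]
        ext x; simp [cj]
      have h1 := hr _ (h.orth_conj (h.symm g hg) hX) hn
      have h3 := cj_apply g (cj g.symm X) r
      rw [cj_cj_symm, h1, map_zero] at h3
      exact h3
    · obtain ⟨χ, hχ⟩ := LieModule.exists_nontrivial_weightSpace_of_isSolvable ℂ (orth 𝔞) R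
      obtain ⟨⟨r, hr⟩, hr0⟩ := exists_ne (0 : LieModule.weightSpace R χ)
      rw [LieModule.mem_weightSpace] at hr
      intro hbot
      have : r ∈ N₂ := by
        intro X hX hXn
        have h1 : X r = χ ⟨X, hX⟩ • r := hr ⟨X, hX⟩
        obtain ⟨k, hk⟩ := hXn
        have h2 : ∀ k : ℕ, (X ^ k) r = (χ ⟨X, hX⟩) ^ k • r := by
          intro k
          induction k with
          | zero => simp
          | succ k ih => rw [pow_succ', Module.End.mul_apply, ih, map_smul, h1, smul_smul, pow_succ]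
        have h3 := h2 k
        rw [hk, LinearMap.zero_apply] at h3
        have h4 : r ≠ 0 := fun h => hr0 (Subtype.ext h)
        have h5 : (χ ⟨X, hX⟩) ^ k = 0 := (smul_eq_zero.1 h3.symm).resolve_right h4
        rw [h1, eq_zero_of_pow_eq_zero h5, zero_smul]
      rw [hbot] at this
      exact hr0 (Subtype.ext ((Submodule.mem_bot ℂ).1 this))
  ext r
  have : r ∈ N₂ := by rw [hN₂]; trivial
  exact this X ⟨hX, hXt⟩ hXn

open Polynomial in
/-- if the traces of the polynomials in `z` without constant term vanish, `z` is nilpotent -/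
theorem isNilpotent_of_trace (z : End ℂ R)
    (h : ∀ q : ℂ[X], LinearMap.trace ℂ R (aeval z q * z) = 0) : IsNilpotent z := by
  obtain ⟨g, hg, hndvd⟩ := (minpoly ℂ z).exists_eq_pow_rootMultiplicity_mul_and_not_dvd
    (minpoly.ne_zero (Algebra.IsIntegral.isIntegral z)) 0
  rw [map_zero, sub_zero] at hndvd
  generalize hk : (minpoly ℂ z).rootMultiplicity 0 = k at hg
  rw [map_zero, sub_zero] at hg
  have hcop : IsCoprime (X ^ (k + 1) : ℂ[X]) g :=
    ((Polynomial.irreducible_X).coprime_iff_not_dvd.2 hndvd).pow_left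
  obtain ⟨u, v, huv⟩ := hcop
  have h0 : aeval z (X ^ k * g) = 0 := by rw [← hg]; exact minpoly.aeval ℂ z
  let e : End ℂ R := aeval z (u * X ^ (k + 1))
  have he : IsIdempotentElem e := by
    have h1 : u * X ^ (k + 1) * (u * X ^ (k + 1)) =
        u * X ^ (k + 1) - (u * v * X) * (X ^ k * g) := by
      have : u * X ^ (k + 1) = 1 - v * g := by rw [← huv]; ring
      calc u * X ^ (k + 1) * (u * X ^ (k + 1)) = u * X ^ (k + 1) * (1 - v * g) := by rw [← this]
        _ = _ := by ring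
    change aeval z (u * X ^ (k + 1)) * aeval z (u * X ^ (k + 1)) = aeval z (u * X ^ (k + 1))
    rw [← map_mul, h1, map_sub, map_mul (aeval z) _ (X ^ k * g), h0, mul_zero, sub_zero]
  have he0 : LinearMap.trace ℂ R e = 0 := by
    have h1 : e = aeval z (u * X ^ k) * z := by
      have h2 : u * X ^ (k + 1) = (u * X ^ k) * X := by ring
      change aeval z (u * X ^ (k + 1)) = _
      rw [h2, map_mul, aeval_X]
    rw [h1]; exact h _
  have he1 : e = 0 := by
    have h1 := (LinearMap.IsIdempotentElem.isProj_range e he).trace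
    rw [he0] at h1
    have h2 : Module.finrank ℂ (LinearMap.range e) = 0 := by exact_mod_cast h1.symm
    rw [Submodule.finrank_eq_zero, LinearMap.range_eq_bot] at h2
    exact h2
  refine ⟨k, ?_⟩
  have h1 : z ^ k = aeval z (X ^ k : ℂ[X]) := by simp
  have h2 : (X ^ k : ℂ[X]) = X ^ k * (u * X ^ (k + 1)) + v * (X ^ k * g) := by
    calc (X ^ k : ℂ[X]) = X ^ k * 1 := by ring
      _ = X ^ k * (u * X ^ (k + 1) + v * g) := by rw [huv]
      _ = _ := by ring
  rw [h1, h2, map_add, map_mul, map_mul _ v, h0, mul_zero, add_zero]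
  change _ * e = 0
  rw [he1, mul_zero]

open Polynomial in
/-- **Lemma (2).** -/
theorem isNilpotent_of_comm {w f z : End ℂ R} (hz : z = w * f - f * w) (hwz : w * z = z * w) :
    IsNilpotent z := by
  apply isNilpotent_of_trace
  intro q
  have hq : w * aeval z q = aeval z q * w := by
    have : Commute w z := hwz
    have h1 : Commute w (aeval z q) := by
      induction q using Polynomial.induction_on' with
      | add p q hp hq => rw [map_add]; exact hp.add_right hq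
      | monomial n a =>
        rw [aeval_monomial]
        have h2 : Commute w (algebraMap ℂ (End ℂ R) a) := (Algebra.commutes a w).symm
        exact h2.mul_right (this.pow_right n)
    exact h1
  have h2 : aeval z q * z = w * (aeval z q * f) - (aeval z q * f) * w := by
    rw [← mul_assoc w, hq, mul_assoc, mul_assoc, ← mul_sub, ← hz]
  rw [h2, map_sub, LinearMap.trace_mul_comm, sub_self]

end Pool.Agent.K6.H85.GW
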