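import Pool.Agent.K6.H85.GW.IdT
import Pool.Agent.K6.H85.GW.Nil

/-!
# The Lie algebra attached to a semisimple variation
-/

set_option autoImplicit false

open scoped Manifold Topology

namespace Pool.Agent.K6.H85.GW

open H956GW Module

attribute [local instance 100] LieRing.ofAssociativeRing

open Polynomial in
/-- the coefficient of `s` of a polynomial with values in a subspace -/
theorem coeff_mem {M : Type*} [AddCommGroup M] [Module ℂ M] (U : Submodule ℂ M) (N : ℕ)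
    (f : ℕ → ℕ → M) {S : Set ℂ} (hS : S.Infinite)
    (h : ∀ s ∈ S, ∑ a ∈ Finset.range (N + 2), ∑ b ∈ Finset.range (N + 2), s ^ (a + b) • f a b ∈ U) :
    f 0 1 + f 1 0 ∈ U := by
  rw [← Subspace.forall_mem_dualAnnihilator_apply_eq_zero_iff]
  intro l hl
  let P : ℂ[X] := ∑ a ∈ Finset.range (N + 2), ∑ b ∈ Finset.range (N + 2),
    C (l (f a b)) * X ^ (a + b)
  have hP : P = 0 := by
    refine Polynomial.eq_zero_of_infinite_isRoot P (hS.mono ?_)
    intro s hs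
    have h1 := (Submodule.mem_dualAnnihilator l).1 hl _ (h s hs)
    change P.eval s = 0
    rw [← h1, map_sum, eval_finsetSum]
    refine Finset.sum_congr rfl fun a _ => ?_
    rw [map_sum, eval_finsetSum]
    refine Finset.sum_congr rfl fun b _ => ?_
    rw [eval_mul, eval_C, eval_pow, eval_X, map_smul, smul_eq_mul, mul_comm]
  have h1 : P.coeff 1 = 0 := by rw [hP, coeff_zero]
  rw [map_add, ← h1]
  simp only [P, finsetSum_coeff, coeff_C_mul, coeff_X_pow]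
  rw [Finset.sum_range_succ', Finset.sum_range_succ']
  have h2 : ∀ a ∈ Finset.range N, (∑ b ∈ Finset.range (N + 2),
      l (f (a + 1 + 1) b) * (if 1 = a + 1 + 1 + b then 1 else 0)) = 0 := by
    intro a _
    refine Finset.sum_eq_zero fun b _ => ?_
    rw [if_neg (by omega), mul_zero]
  rw [Finset.sum_eq_zero h2, zero_add]
  rw [Finset.sum_range_succ', Finset.sum_range_succ']
  rw [Finset.sum_range_succ' _ (N + 1), Finset.sum_range_succ' _ N]
  have h3 : ∀ b ∈ Finset.range N, l (f (0 + 1) (b + 1 + 1)) *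
      (if 1 = 0 + 1 + (b + 1 + 1) then (1 : ℂ) else 0) = 0 := by
    intro b _
    rw [if_neg (by omega), mul_zero]
  have h4 : ∀ b ∈ Finset.range N, l (f 0 (b + 1 + 1)) *
      (if 1 = 0 + (b + 1 + 1) then (1 : ℂ) else 0) = 0 := by
    intro b _
    rw [if_neg (by omega), mul_zero]
  rw [Finset.sum_eq_zero h3, Finset.sum_eq_zero h4]
  simp [add_comm]

/-- the truncated exponential series -/
noncomputable def ex {A : Type*} [CommRing A] [Algebra ℂ A] (K : ℕ) (x : A) : A :=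
  ∑ k ∈ Finset.range (K + 1), ((k.factorial : ℂ)⁻¹) • x ^ k

theorem ex_zero {A : Type*} [CommRing A] [Algebra ℂ A] (K : ℕ) : ex K (0 : A) = 1 := by
  rw [ex, Finset.sum_range_succ']
  rw [Finset.sum_eq_zero (fun k _ => by rw [zero_pow (Nat.succ_ne_zero k), smul_zero])]
  simp

section lie

variable {R : Type*} [CommRing R] [Algebra ℂ R] {S : Type*} [NormedAddCommGroup S]
  [NormedSpace ℂ S]

/-- `ℂ ⊕ V` -/
def Usp (cR : S →ₗ[ℂ] R) : Submodule ℂ R := Submodule.span ℂ {(1 : R)} ⊔ LinearMap.range cR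

/-- the commutation of an operator with the multiplications, at the point `t` -/
theorem star {cR : S →ₗ[ℂ] R} {K : ℕ} {W : Set S} {m : S → R} (hK1 : 1 ≤ K)
    (hW : IsOpen W) (hm : ∀ t ∈ W, ∀ t' ∈ W, m t' = m t * ex K (cR (t' - t)))
    (hunit : ∀ t ∈ W, IsUnit (m t)) {X : End ℂ R} (hX : ∀ t ∈ W, ∃ y ∈ Usp cR, X (m t) = m t * y)
    {t : S} (ht : t ∈ W) {x : R} (hx : X (m t) = m t * x) (v : S) :
    ∃ y ∈ Usp cR, X (m t * cR v) = m t * (cR v * x + y) := by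
  obtain ⟨mt, hmt⟩ := hunit t ht
  let Z : End ℂ R := LinearMap.mulLeft ℂ (mt⁻¹ : Rˣ).1 ∘ₗ X ∘ₗ LinearMap.mulLeft ℂ (m t)
  have hZ : ∀ r, Z r = (mt⁻¹ : Rˣ).1 * X (m t * r) := fun r => rfl
  have hmZ : ∀ r, m t * Z r = X (m t * r) := by
    intro r
    rw [hZ, ← mul_assoc, ← hmt, Units.mul_inv, one_mul]
  let Sset : Set ℂ := {s | t + s • v ∈ W}
  have hSinf : Sset.Infinite := by
    have hcont : Continuous (fun s : ℂ => t + s • v) := by fun_prop
    have h1 : Sset ∈ 𝓝 (0 : ℂ) := (hW.preimage hcont).mem_nhds (by simpa using ht)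
    exact infinite_of_mem_nhds 0 h1
  obtain ⟨N, rfl⟩ : ∃ N, K = N + 1 := ⟨K - 1, by omega⟩
  let f : ℕ → ℕ → R := fun a b =>
    (((-1 : ℂ) ^ a * (a.factorial : ℂ)⁻¹) * (b.factorial : ℂ)⁻¹) • (cR v ^ a * Z (cR v ^ b))
  have hmem : ∀ s ∈ Sset, ∑ a ∈ Finset.range (N + 2), ∑ b ∈ Finset.range (N + 2),
      s ^ (a + b) • f a b ∈ Usp cR := by
    intro s hs
    have hs' : t + s • v ∈ W := hs
    obtain ⟨y, hy, hy'⟩ := hX _ hs'
    have e1 := hm t ht _ hs'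
    have e2 := hm _ hs' t ht
    rw [add_sub_cancel_left, map_smul] at e1
    rw [show t - (t + s • v) = -(s • v) by abel, map_neg, map_smul] at e2
    have e3 : ex (N + 1) (s • cR v) * ex (N + 1) (-(s • cR v)) = 1 := by
      have h1 : m t * (ex (N + 1) (s • cR v) * ex (N + 1) (-(s • cR v))) = m t * 1 := by
        rw [← mul_assoc, ← e1, ← e2, mul_one]
      rw [← hmt] at h1
      exact (Units.mul_right_inj mt).1 h1
    have e4 : Z (ex (N + 1) (s • cR v)) = ex (N + 1) (s • cR v) * y := by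
      rw [hZ, ← e1, hy', e1, ← hmt, mul_assoc, ← mul_assoc, Units.inv_mul, one_mul]
    have e5 : ex (N + 1) (-(s • cR v)) * Z (ex (N + 1) (s • cR v)) = y := by
      rw [e4, ← mul_assoc, mul_comm (ex (N + 1) (-(s • cR v))), e3, one_mul]
    rw [← e5] at hy
    convert hy using 1
    rw [← neg_smul, ex, ex, map_sum, Finset.sum_mul_sum]
    refine Finset.sum_congr rfl fun a _ => Finset.sum_congr rfl fun b _ => ?_
    rw [map_smul, smul_pow, smul_pow, map_smul, smul_smul, smul_smul, smul_mul_smul_comm,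
      mul_smul_comm, smul_smul, neg_pow, pow_add]
    congr 1
    ring
  have h1 := coeff_mem (Usp cR) N f hSinf hmem
  refine ⟨f 0 1 + f 1 0, h1, ?_⟩
  rw [← hmZ]
  congr 1
  have h2 : Z 1 = x := by
    rw [hZ, mul_one, hx, ← hmt, ← mul_assoc, Units.inv_mul, one_mul]
  simp only [f, pow_zero, pow_one, Nat.factorial_zero, Nat.factorial_one, Nat.cast_one, inv_one,
    mul_one, one_mul, one_smul, h2]
  rw [neg_smul, one_smul]
  ring

/-- the operators that carry `m t` into `m t (ℂ ⊕ V)` form a Lie algebra -/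
noncomputable def lieA {cR : S →ₗ[ℂ] R} {K : ℕ} {W : Set S} {m : S → R} (hK1 : 1 ≤ K)
    (hW : IsOpen W) (hm : ∀ t ∈ W, ∀ t' ∈ W, m t' = m t * ex K (cR (t' - t)))
    (hunit : ∀ t ∈ W, IsUnit (m t)) : LieSubalgebra ℂ (End ℂ R) where
  carrier := {X | ∀ t ∈ W, ∃ y ∈ Usp cR, X (m t) = m t * y}
  add_mem' := by
    intro X Y hX hY t ht
    obtain ⟨x, hx, hx'⟩ := hX t ht
    obtain ⟨y, hy, hy'⟩ := hY t ht
    exact ⟨x + y, Submodule.add_mem _ hx hy, by rw [LinearMap.add_apply, hx', hy', mul_add]⟩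
  zero_mem' := fun t _ => ⟨0, Submodule.zero_mem _, by rw [LinearMap.zero_apply, mul_zero]⟩
  smul_mem' := by
    intro c X hX t ht
    obtain ⟨x, hx, hx'⟩ := hX t ht
    exact ⟨c • x, Submodule.smul_mem _ _ hx, by rw [LinearMap.smul_apply, hx', mul_smul_comm]⟩
  lie_mem' := by
    intro X Y hX hY t ht
    obtain ⟨x, hx, hx'⟩ := hX t ht
    obtain ⟨y, hy, hy'⟩ := hY t ht
    obtain ⟨x₀, hx₀, x₁, ⟨v, rfl⟩, rfl⟩ := Submodule.mem_sup.1 hx
    obtain ⟨y₀, hy₀, y₁, ⟨v', rfl⟩, rfl⟩ := Submodule.mem_sup.1 hy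
    obtain ⟨α, rfl⟩ := Submodule.mem_span_singleton.1 hx₀
    obtain ⟨β, rfl⟩ := Submodule.mem_span_singleton.1 hy₀
    obtain ⟨a, ha, ha'⟩ := star hK1 hW hm hunit hX ht hx' v'
    obtain ⟨b, hb, hb'⟩ := star hK1 hW hm hunit hY ht hy' v
    refine ⟨a - b, Submodule.sub_mem _ ha hb, ?_⟩
    rw [LieRing.of_associative_ring_bracket]
    change X (Y (m t)) - Y (X (m t)) = _
    rw [hy', hx', mul_add, mul_add, map_add, map_add, mul_smul_comm, mul_smul_comm, mul_one,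
      map_smul, map_smul, ha', hb', hx', hy']
    simp only [mul_add, mul_sub, smul_add, mul_smul_comm, mul_one]
    rw [show m t * (cR v' * cR v) = m t * (cR v * cR v') by rw [mul_comm (cR v')]]
    rw [smul_comm α β]
    abel

end lie

section geo

variable {G : Type*} [NormedAddCommGroup G] [NormedSpace ℂ G]
  {M : Type*} [TopologicalSpace M] [ChartedSpace G M]
  {Γ : Type*} [Group Γ] [MulAction Γ M]
  {E : Type*} [NormedAddCommGroup E] [NormedSpace ℂ E]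
  {S : Type*} [NormedAddCommGroup S] [NormedSpace ℂ S] {H : Type*}
  [CommRing H] [Algebra ℂ H]

/-- the subalgebra generated by the image of `c` -/
abbrev Rsub (c : S →ₗ[ℂ] H) : Subalgebra ℂ H := Algebra.adjoin ℂ (Set.range c)

/-- the map `c` with values in the subalgebra -/
noncomputable def cRmap (c : S →ₗ[ℂ] H) : S →ₗ[ℂ] Rsub c where
  toFun v := ⟨c v, Algebra.subset_adjoin ⟨v, rfl⟩⟩
  map_add' v w := Subtype.ext (map_add c v w)
  map_smul' a v := Subtype.ext (map_smul c a v)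

theorem coe_cRmap (c : S →ₗ[ℂ] H) (v : S) : ((cRmap c v : Rsub c) : H) = c v := rfl

theorem coe_ex (c : S →ₗ[ℂ] H) (K : ℕ) (x : Rsub c) : ((ex K x : Rsub c) : H) = ex K (x : H) := by
  rw [ex, ex]
  simp

theorem cocycle {c : S →ₗ[ℂ] H} {T : S → (H ≃ₗ[ℂ] E)} {W : Set S}
    (hT : ∀ t ∈ W, ∀ h : H, ∃ D : S →L[ℂ] E,
      HasFDerivAt (fun t => T t h) D t ∧ ∀ x, D x = T t (c x * h))
    (hW : IsOpen W) (hWc : Convex ℝ W) {K : ℕ} (hK : ∀ x, c x ^ (K + 1) = 0)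
    {t t' : S} (ht : t ∈ W) (ht' : t' ∈ W) (h : H) :
    T t' h = T t (ex K (c (t' - t)) * h) := by
  have h0 : t' + (t - t') = t := by abel
  have h1 := transport hT hW hWc ht' (x := t - t') (by rw [h0]; exact ht) h (hK _)
  rw [h0] at h1
  rw [h1, ex, Finset.sum_mul]
  congr 1
  refine Finset.sum_congr rfl fun k _ => ?_
  have h2 : c (t - t') = -c (t' - t) := by rw [← map_neg]; congr 1; abel
  have h3 : ∀ x : H, (-x) ^ k = (-1 : ℂ) ^ k • x ^ k := by
    intro x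
    rw [← neg_one_smul ℂ x, smul_pow]
  rw [h2, h3, smul_mul_assoc, smul_smul, smul_mul_assoc]
  congr 1
  rw [div_mul_eq_mul_div, ← mul_pow]
  norm_num

variable (G M Γ E) in
/-- **The Lie algebra attached to a semisimple variation.** -/
theorem exists_normalised (c : S →ₗ[ℂ] H) {K : ℕ} (hK1 : 1 ≤ K) (hK : ∀ x, c x ^ (K + 1) = 0)
    (U : Set S) (A : S → S → H → H) (hA : ∀ t ∈ U, ∀ x h, A t x h = c x * h)
    (F : ℤ → Submodule ℂ H) {p₀ p₁ : ℤ} (hG0 : F p₀ = Submodule.span ℂ {1})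
    (hG1 : F p₁ = Submodule.span ℂ {1} ⊔ LinearMap.range c)
    (t₀ : S) [IsManifold 𝓘(ℂ, G) 1 M] [PreconnectedSpace M] [FiniteDimensional ℂ E]
    (Y : Variation G M Γ E) (hY : Y.Semisimple) (m₀ : M)
    (hloc : LocallyEquivalentAt U A F t₀ Y m₀) :
    ∃ (𝔞 : LieSubalgebra ℂ (End ℂ (Rsub c))) (𝒢 : Set (Rsub c ≃ₗ[ℂ] Rsub c)),
      Normalises 𝒢 𝔞 ∧ (∀ v, LinearMap.mulLeft ℂ (cRmap c v) ∈ 𝔞) ∧
      (∀ δ : End ℂ (Rsub c), (∀ (v : S) (k : ℕ), δ (cRmap c v ^ k) = (k : ℂ) • cRmap c v ^ k) →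
        δ ∈ 𝔞) ∧ ∀ X ∈ 𝔞, X 1 ∈ Usp (cRmap c) := by
  obtain ⟨φ, T, f, ht₀, hφU, -, -, hTA, hF⟩ := hloc
  -- a ball
  obtain ⟨ε, hε, hball⟩ := Metric.isOpen_iff.1 φ.open_source t₀ ht₀
  let W := Metric.ball t₀ ε
  have hWo : IsOpen W := Metric.isOpen_ball
  have hWc : Convex ℝ W := convex_ball _ _
  have ht₀W : t₀ ∈ W := Metric.mem_ball_self hε
  have hT : ∀ t ∈ W, ∀ h : H, ∃ D : S →L[ℂ] E,
      HasFDerivAt (fun t => T t h) D t ∧ ∀ x, D x = T t (c x * h) := by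
    intro t ht h
    obtain ⟨D, hD, hDx⟩ := hTA t (hball ht) h
    refine ⟨D, hD, fun x => ?_⟩
    rw [hDx, hA t (hφU (hball ht))]
  have hF' : ∀ p, ∀ t ∈ W, (F p).map (T t).toLinearMap = Y.F (f p) (φ t) := by
    intro p t ht
    ext u
    constructor
    · rintro ⟨h, hh, rfl⟩
      exact (hF p t (hball ht) h).1 hh
    · intro hu
      refine ⟨(T t).symm u, (hF p t (hball ht) _).2 ?_, (T t).apply_symm_apply u⟩
      rwa [(T t).apply_symm_apply]
  have hcoc : ∀ t ∈ W, ∀ t' ∈ W, ∀ h, T t' h = T t (ex K (c (t' - t)) * h) :=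
    fun t ht t' ht' h => cocycle hT hWo hWc hK ht ht' h
  -- the section
  let m : S → Rsub c := fun t => ex K (cRmap c (t - t₀))
  have hmT : ∀ t ∈ W, ∀ h : H, T t h = T t₀ ((m t : H) * h) := by
    intro t ht h
    rw [hcoc t₀ ht₀W t ht h, coe_ex]
    rfl
  have hm : ∀ t ∈ W, ∀ t' ∈ W, m t' = m t * ex K (cRmap c (t' - t)) := by
    intro t ht t' ht'
    have h1 := hcoc t ht t' ht' 1
    rw [hmT t' ht', hmT t ht, mul_one, mul_one] at h1
    have h2 := (T t₀).injective h1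
    apply Subtype.ext
    rw [h2]
    simp only [Subalgebra.coe_mul, coe_ex]
    rfl
  have hm0 : m t₀ = 1 := by
    change ex K (cRmap c (t₀ - t₀)) = 1
    rw [sub_self, map_zero, ex_zero]
  have hunit : ∀ t ∈ W, IsUnit (m t) := by
    intro t ht
    have h1 := hm t ht t₀ ht₀W
    rw [hm0] at h1
    exact IsUnit.of_mul_eq_one _ h1.symm
  have hfinH : FiniteDimensional ℂ H := LinearEquiv.finiteDimensional (T t₀).symm
  -- the Lie algebra
  let 𝔞 := lieA hK1 hWo hm hunit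
  have hmem : ∀ X : End ℂ (Rsub c), X ∈ 𝔞 ↔
      ∀ t ∈ W, ∃ y ∈ Usp (cRmap c), X (m t) = m t * y := fun X => Iff.rfl
  -- the section `v t = T t 1`
  have hv : ∀ t ∈ W, Y.F (f p₀) (φ t) = Submodule.span ℂ {T t 1} := by
    intro t ht
    rw [← hF' p₀ t ht, hG0, Submodule.map_span, Set.image_singleton]
    rfl
  have hopen : ∀ O : Set S, IsOpen O → O ⊆ W → IsOpen (φ '' O) := fun O hO hOW =>
    φ.isOpen_image_of_subset_source hO (hOW.trans hball)
  have hUsp : ∀ y : Rsub c, y ∈ Usp (cRmap c) ↔ (y : H) ∈ F p₁ := by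
    intro y
    rw [hG1]
    constructor
    · intro hy
      obtain ⟨a, ha, b, ⟨v, rfl⟩, rfl⟩ := Submodule.mem_sup.1 hy
      obtain ⟨α, rfl⟩ := Submodule.mem_span_singleton.1 ha
      exact Submodule.mem_sup.2 ⟨α • 1, Submodule.smul_mem _ _ (Submodule.mem_span_singleton_self _),
        c v, ⟨v, rfl⟩, rfl⟩
    · intro hy
      obtain ⟨a, ha, b, ⟨v, rfl⟩, hab⟩ := Submodule.mem_sup.1 hy
      obtain ⟨α, rfl⟩ := Submodule.mem_span_singleton.1 ha
      exact Submodule.mem_sup.2 ⟨α • 1, Submodule.smul_mem _ _ (Submodule.mem_span_singleton_self _),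
        cRmap c v, ⟨v, rfl⟩, Subtype.ext hab⟩
  have hUR : ∀ y ∈ F p₁, y ∈ Rsub c := by
    intro y hy
    rw [hG1] at hy
    obtain ⟨a, ha, b, ⟨v, rfl⟩, rfl⟩ := Submodule.mem_sup.1 hy
    obtain ⟨α, rfl⟩ := Submodule.mem_span_singleton.1 ha
    exact add_mem (Subalgebra.smul_mem _ (one_mem _) α) (Algebra.subset_adjoin ⟨v, rfl⟩)
  -- the subbundle generated by the lines
  let E₁ : Submodule ℂ E := (Subalgebra.toSubmodule (Rsub c)).map (T t₀).toLinearMap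
  have hE₁mem : ∀ r : Rsub c, T t₀ r ∈ E₁ := fun r => ⟨r, r.2, rfl⟩
  have hE₁le : ∀ mm, Y.F (f p₀) mm ≤ E₁ := by
    intro mm u hu
    refine map_le_of_map_le_open (Y.holomorphic (f p₀)) (isHolomorphicSubbundle_const E₁)
      LinearMap.id (hopen W hWo subset_rfl) ⟨φ t₀, t₀, ht₀W, rfl⟩ ?_ mm u hu
    rintro _ ⟨t, ht, rfl⟩ u hu
    rw [hv t ht] at hu
    obtain ⟨α, rfl⟩ := Submodule.mem_span_singleton.1 hu
    refine E₁.smul_mem _ ?_
    rw [hmT t ht, mul_one]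
    exact hE₁mem _
  have hE₁sup : ∀ N : Submodule ℂ E, (∀ t ∈ W, T t 1 ∈ N) → E₁ ≤ N := by
    rintro N hN _ ⟨r, hr, rfl⟩
    have := adjoin_mul_mem_of_forall hT hWo N hr hN t₀ ht₀W
    rwa [mul_one] at this
  have hvE₁ : ∀ t ∈ W, T t 1 ∈ Y.F (f p₀) (φ t) := by
    intro t ht
    rw [hv t ht]
    exact Submodule.mem_span_singleton_self _
  have hE₁Γ : ∀ γ, ∀ u ∈ E₁, Y.ρ γ u ∈ E₁ := by
    intro γ
    have h1 : E₁ ≤ E₁.comap (Y.ρ γ).toLinearMap := by
      refine hE₁sup _ fun t ht => ?_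
      exact hE₁le (γ • φ t) ((Y.equivariant γ (f p₀) (φ t) _).2 (hvE₁ t ht))
    exact h1
  -- the action on `R`
  let eR : Rsub c ≃ₗ[ℂ] E₁ := (T t₀).submoduleMap (Subalgebra.toSubmodule (Rsub c))
  have heR : ∀ r : Rsub c, ((eR r : E₁) : E) = T t₀ r := fun r => rfl
  have hρρ : ∀ γ (u : E), Y.ρ γ (Y.ρ γ⁻¹ u) = u := by
    intro γ u
    have : (Y.ρ γ * Y.ρ γ⁻¹) u = u := by rw [← map_mul, mul_inv_cancel, map_one]; rfl
    exact this
  have hex : ∀ γ, ∃ g : Rsub c ≃ₗ[ℂ] Rsub c, ∀ r : Rsub c, Y.ρ γ (T t₀ r) = T t₀ (g r : Rsub c) := by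
    intro γ
    have hmap : E₁.map (Y.ρ γ).toLinearMap = E₁ := by
      apply le_antisymm
      · rintro _ ⟨u, hu, rfl⟩; exact hE₁Γ γ u hu
      · intro u hu
        exact ⟨Y.ρ γ⁻¹ u, hE₁Γ _ u hu, hρρ γ u⟩
    let ργ : E₁ ≃ₗ[ℂ] E₁ := (Y.ρ γ).ofSubmodules E₁ E₁ hmap
    refine ⟨eR.trans (ργ.trans eR.symm), fun r => ?_⟩
    have h1 : ((eR (eR.symm (ργ (eR r))) : E₁) : E) = Y.ρ γ (T t₀ r) := by
      rw [eR.apply_symm_apply]; rfl
    rw [← h1, heR]
    rfl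
  let 𝒢 : Set (Rsub c ≃ₗ[ℂ] Rsub c) := {g | ∃ γ, ∀ r : Rsub c, Y.ρ γ (T t₀ r) = T t₀ (g r : Rsub c)}
  have hsymm : ∀ g ∈ 𝒢, g.symm ∈ 𝒢 := by
    rintro g ⟨γ, hγ⟩
    refine ⟨γ⁻¹, fun r => ?_⟩
    have h1 := hγ (g.symm r)
    rw [g.apply_symm_apply] at h1
    rw [← h1]
    have := hρρ γ⁻¹ (T t₀ (g.symm r : Rsub c))
    rwa [inv_inv] at this
  refine ⟨𝔞, 𝒢, ⟨?_, hsymm, ?_⟩, ?_, ?_, ?_⟩
  · -- `𝔞` is normalised
    rintro g ⟨γ, hγ⟩ X hX
    obtain ⟨Xh, hXh⟩ := LinearMap.exists_extend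
      ((T t₀).toLinearMap ∘ₗ (Rsub c).val.toLinearMap ∘ₗ X ∘ₗ eR.symm.toLinearMap)
    have hXh' : ∀ r : Rsub c, Xh (T t₀ r) = T t₀ (X r : Rsub c) := by
      intro r
      have h1 := LinearMap.congr_fun hXh (eR r)
      have h2 : Xh (T t₀ r) = T t₀ ((X (eR.symm (eR r)) : Rsub c) : H) := h1
      rwa [eR.symm_apply_apply] at h2
    have hXF : ∀ mm, ∀ u ∈ Y.F (f p₀) mm, Xh u ∈ Y.F (f p₁) mm := by
      intro mm
      refine map_le_of_map_le_open (Y.holomorphic (f p₀)) (Y.holomorphic (f p₁)) Xh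
        (hopen W hWo subset_rfl) ⟨φ t₀, t₀, ht₀W, rfl⟩ ?_ mm
      rintro _ ⟨t, ht, rfl⟩ u hu
      rw [hv t ht] at hu
      obtain ⟨α, rfl⟩ := Submodule.mem_span_singleton.1 hu
      rw [map_smul]
      refine Submodule.smul_mem _ _ ?_
      obtain ⟨y, hy, hy'⟩ := hX t ht
      rw [hmT t ht, mul_one, hXh', hy', Subalgebra.coe_mul, ← hmT t ht, ← hF' p₁ t ht]
      exact ⟨_, (hUsp y).1 hy, rfl⟩
    rw [hmem]
    intro t ht
    have h1 : Y.ρ γ⁻¹ (T t 1) ∈ Y.F (f p₀) (γ⁻¹ • φ t) :=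
      (Y.equivariant γ⁻¹ (f p₀) (φ t) _).2 (hvE₁ t ht)
    have h2 := (Y.equivariant γ (f p₁) (γ⁻¹ • φ t) _).2 (hXF _ _ h1)
    rw [smul_inv_smul] at h2
    have h3 : Y.ρ γ⁻¹ (T t 1) = T t₀ (g.symm (m t) : Rsub c) := by
      rw [hmT t ht, mul_one]
      have h4 := hγ (g.symm (m t))
      rw [g.apply_symm_apply] at h4
      rw [← h4]
      have := hρρ γ⁻¹ (T t₀ (g.symm (m t) : Rsub c))
      rwa [inv_inv] at this
    rw [h3, hXh', hγ, ← hF' p₁ t ht] at h2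
    obtain ⟨y, hy, hy'⟩ := h2
    refine ⟨⟨y, hUR y hy⟩, (hUsp _).2 hy, ?_⟩
    have h5 : T t y = T t₀ (g (X (g.symm (m t))) : Rsub c) := hy'
    rw [hmT t ht] at h5
    have h6 := (T t₀).injective h5
    exact Subtype.ext h6.symm
  · -- irreducibility
    intro N hN
    let NE : Submodule ℂ E := (N.map (Rsub c).val.toLinearMap).map (T t₀).toLinearMap
    have hNE : ∀ u : E, u ∈ NE ↔ ∃ r ∈ N, T t₀ (r : H) = u := by
      intro u
      constructor
      · rintro ⟨_, ⟨r, hr, rfl⟩, rfl⟩; exact ⟨r, hr, rfl⟩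
      · rintro ⟨r, hr, rfl⟩; exact ⟨_, ⟨r, hr, rfl⟩, rfl⟩
    have hNflat : Y.IsFlat NE := by
      intro γ u hu
      obtain ⟨r, hr, rfl⟩ := (hNE u).1 hu
      obtain ⟨g, hg⟩ := hex γ
      rw [hg, hNE]
      exact ⟨g r, hN g ⟨γ, hg⟩ r hr, rfl⟩
    obtain ⟨N', hN', hcomp, hFN⟩ := hY NE hNflat
    have hdich : ∀ t ∈ W, T t 1 ∈ NE ∨ T t 1 ∈ N' := by
      intro t ht
      have h1 := hFN (f p₀) (φ t)
      have h2 : T t 1 ∈ (Y.F (f p₀) (φ t) ⊓ NE) ⊔ (Y.F (f p₀) (φ t) ⊓ N') := by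
        rw [← h1]; exact hvE₁ t ht
      obtain ⟨x, hx, y, hy, hxy⟩ := Submodule.mem_sup.1 h2
      rw [hv t ht] at hx hy
      obtain ⟨α, hα⟩ := Submodule.mem_span_singleton.1 hx.1
      by_cases hα0 : α = 0
      · right
        rw [← hxy, ← hα, hα0, zero_smul, zero_add]
        exact hy.2
      · left
        have h3 : α⁻¹ • x ∈ NE := NE.smul_mem _ hx.2
        rwa [← hα, smul_smul, inv_mul_cancel₀ hα0, one_smul] at h3
    by_cases hall : ∀ t ∈ W, T t 1 ∈ NE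
    · right
      have h1 := hE₁sup NE hall
      rw [eq_top_iff]
      intro r _
      obtain ⟨r', hr', hr''⟩ := (hNE _).1 (h1 (hE₁mem r))
      have : r' = r := Subtype.ext ((T t₀).injective hr'')
      rwa [this] at hr'
    · left
      push Not at hall
      obtain ⟨t₁, ht₁, hnt₁⟩ := hall
      let O : Set S := {t | t ∈ W ∧ T t 1 ∉ NE}
      have hO : IsOpen O := by
        rw [isOpen_iff_mem_nhds]
        rintro t ⟨ht, hnt⟩
        have hcont : ContinuousAt (fun t => T t 1) t := by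
          obtain ⟨D, hD, -⟩ := hT t ht 1
          exact hD.continuousAt
        have hNEc : IsClosed (NE : Set E) := NE.closed_of_finiteDimensional
        have h1 : ∀ᶠ t' in 𝓝 t, T t' 1 ∈ (NE : Set E)ᶜ :=
          hcont.eventually (hNEc.isOpen_compl.mem_nhds hnt)
        filter_upwards [h1, hWo.mem_nhds ht] with t' h1 h2
        exact ⟨h2, h1⟩
      have h1 : ∀ mm, Y.F (f p₀) mm ≤ N' := by
        intro mm u hu
        refine map_le_of_map_le_open (Y.holomorphic (f p₀)) (isHolomorphicSubbundle_const N')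
          LinearMap.id (hopen O hO (fun t ht => ht.1)) ⟨φ t₁, t₁, ⟨ht₁, hnt₁⟩, rfl⟩ ?_ mm u hu
        rintro _ ⟨t, ht, rfl⟩ u hu
        rw [hv t ht.1] at hu
        obtain ⟨α, rfl⟩ := Submodule.mem_span_singleton.1 hu
        exact N'.smul_mem _ ((hdich t ht.1).resolve_left ht.2)
      have h2 : E₁ ≤ N' := hE₁sup N' fun t ht => h1 _ (hvE₁ t ht)
      rw [eq_bot_iff]
      intro r hr
      have h3 : T t₀ (r : H) ∈ NE := (hNE _).2 ⟨r, hr, rfl⟩
      have h4 : T t₀ (r : H) ∈ N' := h2 (hE₁mem r)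
      have h5 := Submodule.disjoint_def.1 hcomp.disjoint _ h3 h4
      have h6 := (T t₀).map_eq_zero_iff.1 h5
      rw [Submodule.mem_bot]
      exact Subtype.ext h6
  · -- multiplications
    intro v t ht
    refine ⟨cRmap c v, Submodule.mem_sup_right ⟨v, rfl⟩, ?_⟩
    change cRmap c v * m t = _
    rw [mul_comm]
  · -- the grading operator
    intro δ hδ t ht
    refine ⟨cRmap c (t - t₀), Submodule.mem_sup_right ⟨_, rfl⟩, ?_⟩
    change δ (ex K (cRmap c (t - t₀))) = ex K (cRmap c (t - t₀)) * cRmap c (t - t₀)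
    have hnil : cRmap c (t - t₀) ^ (K + 1) = 0 := Subtype.ext (hK _)
    rw [ex, map_sum, Finset.sum_mul, Finset.sum_range_succ' (fun k => δ _),
      Finset.sum_range_succ (fun k => (_ : Rsub c))]
    have h1 : ((K.factorial : ℂ)⁻¹ • cRmap c (t - t₀) ^ K) * cRmap c (t - t₀) = 0 := by
      rw [smul_mul_assoc, ← pow_succ, hnil, smul_zero]
    have h2 : δ (((0 : ℕ).factorial : ℂ)⁻¹ • cRmap c (t - t₀) ^ 0) = 0 := by
      rw [map_smul, hδ]; simp
    rw [h1, h2, add_zero, add_zero]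
    refine Finset.sum_congr rfl fun k _ => ?_
    rw [map_smul, hδ, smul_smul, smul_mul_assoc, ← pow_succ]
    congr 1
    rw [Nat.factorial_succ]
    have h3 : ((k : ℂ) + 1) ≠ 0 := by exact_mod_cast Nat.succ_ne_zero k
    have h4 : (k.factorial : ℂ) ≠ 0 := by exact_mod_cast k.factorial_ne_zero
    push_cast
    field_simp
  · -- the value at `1`
    intro X hX
    obtain ⟨y, hy, hy'⟩ := hX t₀ ht₀W
    rw [hm0, one_mul] at hy'
    rwa [hy']

end geo

end Pool.Agent.K6.H85.GW
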