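import Pool.Agent.H956GW.Local

/-!
# The identity theorem for homomorphisms of filtered flat bundles
-/

set_option autoImplicit false

open scoped Manifold Topology

namespace Pool.Agent.K6.H85.GW

open H956GW

variable {G : Type*} [NormedAddCommGroup G] [NormedSpace ℂ G]
  {M : Type*} [TopologicalSpace M] [ChartedSpace G M]
  {E : Type*} [NormedAddCommGroup E] [NormedSpace ℂ E]

/-- a constant family of subspaces is a holomorphic subbundle -/
theorem isHolomorphicSubbundle_const (N : Submodule ℂ E) :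
    IsHolomorphicSubbundle G (fun _ : M => N) := by
  intro m₀
  refine ⟨Set.univ, Filter.univ_mem, fun _ => 1, mdifferentiableOn_const, fun m _ => ⟨isUnit_one, ?_⟩⟩
  intro u
  rfl

/-- **Identity theorem**: a constant linear map that carries the holomorphic subbundle `F` into the
holomorphic subbundle `F'` over a nonempty open set does so everywhere. -/
theorem map_le_of_map_le_open [IsManifold 𝓘(ℂ, G) 1 M] [PreconnectedSpace M]
    [FiniteDimensional ℂ E] {F F' : M → Submodule ℂ E} (hF : IsHolomorphicSubbundle G F)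
    (hF' : IsHolomorphicSubbundle G F') (A : E →ₗ[ℂ] E) {V : Set M} (hV : IsOpen V)
    (hne : V.Nonempty) (h : ∀ m ∈ V, ∀ u ∈ F m, A u ∈ F' m) (m : M) : ∀ u ∈ F m, A u ∈ F' m := by
  have : CompleteSpace E := FiniteDimensional.complete ℂ E
  let Z : Set M := {m | ∀ᶠ m' in 𝓝 m, ∀ u ∈ F m', A u ∈ F' m'}
  have hZo : IsOpen Z := isOpen_setOfPred_eventually_nhds
  have hVZ : V ⊆ Z := fun m hm => Filter.mem_of_superset (hV.mem_nhds hm) h
  have hZc : IsClosed Z := by
    refine isClosed_of_closure_subset ?_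
    intro m₀ hm₀
    obtain ⟨U₁, hU₁, g₁, hg₁, hgU₁⟩ := hF m₀
    obtain ⟨U₂, hU₂, g₂, hg₂, hgU₂⟩ := hF' m₀
    let U := U₁ ∩ U₂
    have hU : U ∈ 𝓝 m₀ := Filter.inter_mem hU₁ hU₂
    let e := chartAt G m₀
    let O : Set G := e.target ∩ e.symm ⁻¹' (interior U)
    have hO : IsOpen O := e.isOpen_inter_preimage_symm isOpen_interior
    have hm₀s : m₀ ∈ e.source := mem_chart_source _ _
    have hm₀O : e m₀ ∈ O := by
      refine ⟨e.map_source hm₀s, ?_⟩
      change e.symm (e m₀) ∈ interior U
      rw [e.left_inv hm₀s]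
      exact mem_interior_iff_mem_nhds.2 hU
    obtain ⟨r, hr, hBO⟩ := Metric.isOpen_iff.1 hO (e m₀) hm₀O
    let B := Metric.ball (e m₀) r
    let W : Set M := e.source ∩ e ⁻¹' B
    have hWo : IsOpen W := e.isOpen_inter_preimage Metric.isOpen_ball
    have hm₀W : m₀ ∈ W := ⟨hm₀s, Metric.mem_ball_self hr⟩
    have hWU : W ⊆ interior U := by
      intro m hm
      have := (hBO hm.2).2
      change e.symm (e m) ∈ interior U at this
      rwa [e.left_inv hm.1] at this
    obtain ⟨m₁, hm₁W, hm₁Z⟩ := mem_closure_iff.1 hm₀ W hWo hm₀W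
    have key : ∀ m ∈ W, ∀ u ∈ F m, A u ∈ F' m := by
      intro m hm u hu
      have hmU : m ∈ U := interior_subset (hWU hm)
      rw [(hgU₂ m hmU.2).2]
      rw [← Subspace.forall_mem_dualAnnihilator_apply_eq_zero_iff]
      intro l hl
      have hu₀ : g₁ m u ∈ F m₀ := ((hgU₁ m hmU.1).2 u).1 hu
      -- the holomorphic function
      let k : G → ℂ := fun z => l (g₂ (e.symm z) (A (Ring.inverse (g₁ (e.symm z)) (g₁ m u))))
      have hk : DifferentiableOn ℂ k B := by
        intro z hz
        have hzO := hBO hz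
        have hzU : e.symm z ∈ U := interior_subset hzO.2
        have hint : interior U ∈ 𝓝 (e.symm z) := isOpen_interior.mem_nhds hzO.2
        have hn1 : U₁ ∈ 𝓝 (e.symm z) :=
          Filter.mem_of_superset hint (interior_subset.trans Set.inter_subset_left)
        have hn2 : U₂ ∈ 𝓝 (e.symm z) :=
          Filter.mem_of_superset hint (interior_subset.trans Set.inter_subset_right)
        have h1 : MDifferentiableAt 𝓘(ℂ, G) 𝓘(ℂ, G) e.symm z :=
          (mdifferentiableAt_atlas_symm (chart_mem_atlas _ _) hzO.1)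
        have h2 : MDifferentiableAt 𝓘(ℂ, G) 𝓘(ℂ, E →L[ℂ] E) g₁ (e.symm z) :=
          (hg₁ _ hzU.1).mdifferentiableAt hn1
        have h2' : MDifferentiableAt 𝓘(ℂ, G) 𝓘(ℂ, E →L[ℂ] E) g₂ (e.symm z) :=
          (hg₂ _ hzU.2).mdifferentiableAt hn2
        have h3 : MDifferentiableAt 𝓘(ℂ, G) 𝓘(ℂ, E →L[ℂ] E) (g₁ ∘ e.symm) z :=
          MDifferentiableAt.comp z h2 h1
        have h3' : MDifferentiableAt 𝓘(ℂ, G) 𝓘(ℂ, E →L[ℂ] E) (g₂ ∘ e.symm) z :=
          MDifferentiableAt.comp z h2' h1
        have h4 : DifferentiableAt ℂ (g₁ ∘ e.symm) z := mdifferentiableAt_iff_differentiableAt.1 h3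
        have h4' : DifferentiableAt ℂ (g₂ ∘ e.symm) z :=
          mdifferentiableAt_iff_differentiableAt.1 h3'
        obtain ⟨v, hv⟩ := (hgU₁ _ hzU.1).1
        have h5 : DifferentiableAt ℂ (fun z => Ring.inverse (g₁ (e.symm z))) z := by
          have h6 : DifferentiableAt ℂ (Ring.inverse : (E →L[ℂ] E) → (E →L[ℂ] E))
              ((g₁ ∘ e.symm) z) := by
            change DifferentiableAt ℂ _ (g₁ (e.symm z))
            rw [← hv]
            exact differentiableAt_inverse (𝕜 := ℂ) v.isUnit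
          exact h6.comp z h4
        have h7 : DifferentiableAt ℂ
            (fun z => Ring.inverse (g₁ (e.symm z)) (g₁ m u)) z :=
          h5.clm_apply (differentiableAt_const _)
        have h8 : DifferentiableAt ℂ
            (fun z => A (Ring.inverse (g₁ (e.symm z)) (g₁ m u))) z :=
          ((LinearMap.toContinuousLinearMap A).differentiable _).comp z h7
        have h9 : DifferentiableAt ℂ
            (fun z => g₂ (e.symm z) (A (Ring.inverse (g₁ (e.symm z)) (g₁ m u)))) z :=
          DifferentiableAt.clm_apply h4' h8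
        have h10 : Differentiable ℂ (fun x : E => l x) :=
          (LinearMap.toContinuousLinearMap l).differentiable
        exact ((h10 _).comp z h9).differentiableWithinAt
      have hz₁ : e m₁ ∈ B := hm₁W.2
      have h0 : ∀ᶠ z in 𝓝 (e m₁), k z = 0 := by
        have ht : Filter.Tendsto e.symm (𝓝 (e m₁)) (𝓝 m₁) := e.tendsto_symm hm₁W.1
        have hev : ∀ᶠ m' in 𝓝 m₁, m' ∈ U ∧ ∀ u ∈ F m', A u ∈ F' m' := by
          refine Filter.Eventually.and ?_ hm₁Z
          exact mem_interior_iff_mem_nhds.1 (hWU hm₁W)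
        filter_upwards [ht.eventually hev] with z hz
        obtain ⟨v, hv⟩ := (hgU₁ _ hz.1.1).1
        have h1 : g₁ (e.symm z) (Ring.inverse (g₁ (e.symm z)) (g₁ m u)) = g₁ m u := by
          rw [← hv, Ring.inverse_unit]
          change ((v : E →L[ℂ] E) * (v⁻¹ : (E →L[ℂ] E)ˣ)) (g₁ m u) = g₁ m u
          rw [Units.mul_inv]
          rfl
        have h2 : Ring.inverse (g₁ (e.symm z)) (g₁ m u) ∈ F (e.symm z) := by
          rw [(hgU₁ _ hz.1.1).2, h1]
          exact hu₀
        have h3 := hz.2 _ h2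
        rw [(hgU₂ _ hz.1.2).2] at h3
        exact (Submodule.mem_dualAnnihilator l).1 hl _ h3
      have h1 := eq_zero_of_eventually_zero Metric.isOpen_ball (convex_ball _ _) hk hz₁ h0 hm.2
      have h2 : e.symm (e m) = m := e.left_inv hm.1
      obtain ⟨v, hv⟩ := (hgU₁ _ hmU.1).1
      have h3 : Ring.inverse (g₁ m) (g₁ m u) = u := by
        rw [← hv, Ring.inverse_unit]
        change ((v⁻¹ : (E →L[ℂ] E)ˣ) * (v : E →L[ℂ] E)) u = u
        rw [Units.inv_mul]
        rfl
      simpa only [k, h2, h3] using h1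
    exact Filter.mem_of_superset (hWo.mem_nhds hm₀W) key
  have hZ : Z = Set.univ := IsClopen.eq_univ ⟨hZc, hZo⟩ (hne.mono hVZ)
  have : m ∈ Z := by rw [hZ]; trivial
  exact this.self_of_nhds

end Pool.Agent.K6.H85.GW
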